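import Mathlib

/-!
# Laver-like Namba forcing: basic combinatorics
-/

namespace Pool.Agent.R598.Nm

open Cardinal Set

universe u v

/-- Trees of finite sequences with stem `s` in which every node extending `s` has exactly
`ℵ₂` immediate successors. -/
structure IsNm {Ω : Type} (p : Set (List Ω)) (s : List Ω) : Prop where
  down : ∀ t u, u ∈ p → t <+: u → t ∈ p
  mem : s ∈ p
  comp : ∀ t ∈ p, t <+: s ∨ s <+: t
  succ : ∀ t ∈ p, s <+: t → #({x | t ++ [x] ∈ p} : Set Ω) = ℵ_ 2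

/-- Sets of size at most `ℵ₁`. -/
def Small {Ω : Type} (A : Set Ω) : Prop := #A ≤ ℵ_ 1

theorem Small.mono {Ω : Type} {A B : Set Ω} (h : Small B) (hAB : A ⊆ B) : Small A :=
  (Cardinal.mk_le_mk_of_subset hAB).trans h

theorem small_iUnion {Ω ι : Type} (hι : #ι ≤ ℵ_ 1) {A : ι → Set Ω} (h : ∀ i, Small (A i)) :
    Small (⋃ i, A i) := by
  unfold Small at *
  refine (Cardinal.mk_iUnion_le_sum_mk).trans ?_
  refine (Cardinal.sum_le_sum _ (fun _ => ℵ_ 1) h).trans ?_
  rw [Cardinal.sum_const]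
  simp only [Cardinal.lift_id]
  calc #ι * ℵ_ 1 ≤ ℵ_ 1 * ℵ_ 1 := mul_le_mul_left hι _
    _ = ℵ_ 1 := Cardinal.mul_eq_self (Cardinal.aleph0_le_aleph 1)

theorem small_union {Ω : Type} {A B : Set Ω} (hA : Small A) (hB : Small B) : Small (A ∪ B) := by
  unfold Small at *
  refine (Cardinal.mk_union_le A B).trans ?_
  calc #A + #B ≤ ℵ_ 1 + ℵ_ 1 := add_le_add hA hB
    _ = ℵ_ 1 := Cardinal.add_eq_self (Cardinal.aleph0_le_aleph 1)

theorem aleph_one_lt_two : (ℵ_ 1 : Cardinal.{u}) < ℵ_ 2 :=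
  Cardinal.aleph_lt_aleph.2 (by norm_num)

theorem aleph_two_le {c : Cardinal.{u}} (h : ℵ_ 1 < c) : ℵ_ 2 ≤ c := by
  have : Order.succ (ℵ_ 1) ≤ c := Order.succ_le_of_lt h
  rw [Cardinal.succ_aleph] at this
  have h2 : (1 : Ordinal.{u}) + 1 = 2 := by norm_num
  rwa [h2] at this

theorem not_small_iff {Ω : Type} (hΩ : #Ω = ℵ_ 2) {A : Set Ω} : ¬ Small A ↔ #A = ℵ_ 2 := by
  unfold Small
  constructor
  · intro h
    exact le_antisymm (hΩ ▸ Cardinal.mk_set_le A) (aleph_two_le (not_le.1 h))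
  · intro h
    rw [h]; exact not_le.2 aleph_one_lt_two

theorem exists_big_fiber {Ω ι : Type} (hι : #ι ≤ ℵ_ 1) {A : Set Ω} (hA : ¬ Small A)
    (f : Ω → ι) : ∃ i, ¬ Small {x ∈ A | f x = i} := by
  by_contra hcon
  push Not at hcon
  apply hA
  refine (small_iUnion hι hcon).mono ?_
  intro x hx
  simp [hx]

variable {Ω : Type}

theorem IsNm.big (hΩ : #Ω = ℵ_ 2) {p : Set (List Ω)} {s t : List Ω} (hp : IsNm p s)
    (ht : t ∈ p) (hst : s <+: t) : ¬ Small {x | t ++ [x] ∈ p} :=
  (not_small_iff hΩ).2 (hp.succ t ht hst)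

/-- the cone `p_u` -/
def cone (p : Set (List Ω)) (u : List Ω) : Set (List Ω) := {w ∈ p | w <+: u ∨ u <+: w}

theorem cone_sub (p : Set (List Ω)) (u : List Ω) : cone p u ⊆ p := fun _ h => h.1

theorem cone_isNm {p : Set (List Ω)} {s u : List Ω} (hp : IsNm p s) (hu : u ∈ p)
    (hsu : s <+: u) : IsNm (cone p u) u where
  down := by
    rintro t w ⟨hw, hc⟩ htw
    refine ⟨hp.down t w hw htw, ?_⟩
    rcases hc with hc | hc
    · exact Or.inl (htw.trans hc)
    · exact List.prefix_or_prefix_of_prefix htw hc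
  mem := ⟨hu, Or.inl (List.prefix_rfl)⟩
  comp := fun t ht => ht.2
  succ := by
    rintro t ⟨ht, -⟩ hut
    rw [← hp.succ t ht (hsu.trans hut)]
    have : {x | t ++ [x] ∈ cone p u} = {x | t ++ [x] ∈ p} := by
      ext x
      simp only [cone, mem_ofPred_eq]
      constructor
      · exact fun h => h.1
      · intro h
        exact ⟨h, Or.inr (hut.trans (List.prefix_append t [x]))⟩
    exact congrArg (fun A : Set Ω => #A) this

/-- every condition has nodes of arbitrary length above the stem -/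
theorem IsNm.exists_long (hΩ : #Ω = ℵ_ 2) {p : Set (List Ω)} {s : List Ω} (hp : IsNm p s)
    (n : ℕ) : ∃ u ∈ p, s <+: u ∧ n ≤ u.length := by
  induction n with
  | zero => exact ⟨s, hp.mem, List.prefix_rfl, Nat.zero_le _⟩
  | succ n ih =>
    obtain ⟨u, hu, hsu, hn⟩ := ih
    have hb := hp.big hΩ hu hsu
    have hne : {x | u ++ [x] ∈ p}.Nonempty := by
      by_contra hcon
      rw [Set.not_nonempty_iff_eq_empty] at hcon
      rw [hcon] at hb
      apply hb
      unfold Small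
      simp
    obtain ⟨x, hx⟩ := hne
    refine ⟨u ++ [x], hx, hsu.trans (List.prefix_append _ _), ?_⟩
    simp [hn]

/-- pruning -/
theorem prune (hΩ : #Ω = ℵ_ 2) {p : Set (List Ω)} {s : List Ω} (hp : IsNm p s)
    (Bad : List Ω → Prop) (hs : ¬ Bad s)
    (h : ∀ t ∈ p, s <+: t → ¬ Bad t → Small {x | t ++ [x] ∈ p ∧ Bad (t ++ [x])}) :
    ∃ q ⊆ p, IsNm q s ∧ ∀ t ∈ q, s <+: t → ¬ Bad t := by
  refine ⟨{t ∈ p | ∀ u, s <+: u → u <+: t → ¬ Bad u}, fun t ht => ht.1, ?_, ?_⟩
  · refine ⟨?_, ?_, ?_, ?_⟩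
    · rintro t u ⟨hu, hb⟩ htu
      exact ⟨hp.down t u hu htu, fun w hsw hwt => hb w hsw (hwt.trans htu)⟩
    · refine ⟨hp.mem, fun u hsu hus => ?_⟩
      have : u = s := hus.eq_of_length (le_antisymm hus.length_le hsu.length_le)
      rwa [this]
    · rintro t ⟨ht, -⟩
      exact hp.comp t ht
    · rintro t ⟨ht, hb⟩ hst
      rw [← (not_small_iff hΩ (A := {x | t ++ [x] ∈ {t ∈ p | ∀ u, s <+: u → u <+: t → ¬ Bad u}}))]
      intro hsm
      apply hp.big hΩ ht hst
      refine (small_union hsm (h t ht hst (hb t hst List.prefix_rfl))).mono ?_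
      intro x hx
      by_cases hbx : Bad (t ++ [x])
      · exact Or.inr ⟨hx, hbx⟩
      · refine Or.inl ⟨hx, fun u hsu hut => ?_⟩
        rcases List.prefix_concat_iff.1 hut with h1 | h1
        · rw [h1]; exact hbx
        · exact hb u hsu h1
  · rintro t ⟨ht, hb⟩ hst
    exact hb t hst List.prefix_rfl

/-- amalgamation of big many conditions -/
theorem amalgam (hΩ : #Ω = ℵ_ 2) {p : Set (List Ω)} {t : List Ω}
    {A : Set Ω} (hA : ¬ Small A) (q : Ω → Set (List Ω))
    (hq : ∀ x ∈ A, IsNm (q x) (t ++ [x])) (hqp : ∀ x ∈ A, q x ⊆ p) :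
    ∃ r ⊆ p, IsNm r t ∧ ∀ r' s', r' ⊆ r → IsNm r' s' →
      ∃ x ∈ A, ∃ r'' s'', r'' ⊆ r' ∧ IsNm r'' s'' ∧ r'' ⊆ q x := by
  have hAne : A.Nonempty := by
    by_contra hcon
    rw [Set.not_nonempty_iff_eq_empty] at hcon
    rw [hcon] at hA
    apply hA
    unfold Small
    simp
  have key : ∀ x ∈ A, ∀ w ∈ q x, t.length < w.length → t ++ [x] <+: w := by
    intro x hx w hw hl
    rcases (hq x hx).comp w hw with h | h
    · have : w = t ++ [x] := h.eq_of_length (le_antisymm h.length_le (by simp; omega))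
      rw [this]
    · exact h
  have htmem : ∀ x ∈ A, t ∈ q x := fun x hx =>
    (hq x hx).down t _ (hq x hx).mem (List.prefix_append _ _)
  refine ⟨⋃ x ∈ A, q x, ?_, ?_, ?_⟩
  · intro w hw
    simp only [mem_iUnion] at hw
    obtain ⟨x, hx, hw⟩ := hw
    exact hqp x hx hw
  · refine ⟨?_, ?_, ?_, ?_⟩
    · intro w u hu hwu
      simp only [mem_iUnion] at hu ⊢
      obtain ⟨x, hx, hu⟩ := hu
      exact ⟨x, hx, (hq x hx).down w u hu hwu⟩
    · obtain ⟨x, hx⟩ := hAne
      simp only [mem_iUnion]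
      exact ⟨x, hx, htmem x hx⟩
    · intro w hw
      simp only [mem_iUnion] at hw
      obtain ⟨x, hx, hw⟩ := hw
      rcases (hq x hx).comp w hw with h | h
      · exact List.prefix_or_prefix_of_prefix h (List.prefix_append _ _)
      · exact Or.inr ((List.prefix_append _ _).trans h)
    · intro w hw htw
      simp only [mem_iUnion] at hw
      obtain ⟨x, hx, hw⟩ := hw
      by_cases hl : t.length < w.length
      · have := (hq x hx).succ w hw (key x hx w hw hl)
        rw [← (not_small_iff hΩ (A := {y | w ++ [y] ∈ ⋃ x ∈ A, q x}))]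
        intro hsm
        have h2 : ¬ Small {y | w ++ [y] ∈ q x} := (not_small_iff hΩ).2 this
        apply h2
        refine hsm.mono ?_
        intro y hy
        simp only [mem_ofPred_eq, mem_iUnion]
        exact ⟨x, hx, hy⟩
      · have hwt : t = w := htw.eq_of_length (le_antisymm htw.length_le (not_lt.1 hl))
        subst hwt
        rw [← (not_small_iff hΩ (A := {y | t ++ [y] ∈ ⋃ x ∈ A, q x}))]
        intro hsm
        apply hA
        refine hsm.mono ?_
        intro y hy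
        simp only [mem_ofPred_eq, mem_iUnion]
        exact ⟨y, hy, (hq y hy).mem⟩
  · intro r' s' hr' hs'
    obtain ⟨u, hu, hsu, hlen⟩ := hs'.exists_long hΩ (t.length + 1)
    have huu := hr' hu
    simp only [mem_iUnion] at huu
    obtain ⟨x, hx, huq⟩ := huu
    refine ⟨x, hx, cone r' u, u, cone_sub _ _, cone_isNm hs' hu hsu, ?_⟩
    rintro w ⟨hw, hc⟩
    rcases hc with hc | hc
    · exact (hq x hx).down w u huq hc
    · have hww := hr' hw
      simp only [mem_iUnion] at hww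
      obtain ⟨y, hy, hwq⟩ := hww
      have h1 : t ++ [x] <+: w := (key x hx u huq (by omega)).trans hc
      have h2 : t ++ [y] <+: w := key y hy w hwq (by have := hc.length_le; omega)
      have h3 : t ++ [x] = t ++ [y] := by
        rcases List.prefix_or_prefix_of_prefix h1 h2 with h | h
        · exact h.eq_of_length (by simp)
        · exact (h.eq_of_length (by simp)).symm
      have h4 : x = y := by simpa using h3
      rw [h4]; exact hwq

/-- Gale-Stewart analysis of an open game. -/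
theorem galeStewart {Y : Type u} {Z : Type v} (R : Z → Y → Y → Prop) :
    ∃ (W : Set Y) (rk : Y → Ordinal.{u}),
      (∀ y ∈ W, ∀ z, ∃ y' ∈ W, R z y y') ∧
      (∀ y ∉ W, ∃ z, ∀ y', R z y y' → y' ∉ W ∧ rk y' < rk y) := by
  classical
  let step : (ξ : Ordinal.{u}) → ((η : Ordinal.{u}) → η < ξ → Set Y) → Set Y :=
    fun ξ f => {y | ∃ z, ∀ y', R z y y' → ∃ η, ∃ h : η < ξ, y' ∈ f η h}
  let St : Ordinal.{u} → Set Y := fun ξ => Ordinal.lt_wf.fix (C := fun _ => Set Y) step ξ
  have hSt : ∀ ξ y, y ∈ St ξ ↔ ∃ z, ∀ y', R z y y' → ∃ η, η < ξ ∧ y' ∈ St η := by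
    intro ξ y
    have : St ξ = step ξ (fun η _ => St η) := Ordinal.lt_wf.fix_eq (C := fun _ => Set Y) step ξ
    rw [this]
    simp only [step, mem_ofPred_eq, exists_prop]
  let rk : Y → Ordinal.{u} := fun y => sInf {ξ | y ∈ St ξ}
  refine ⟨{y | ∀ ξ, y ∉ St ξ}, rk, ?_, ?_⟩
  · intro y hy z
    by_contra hcon
    push Not at hcon
    have h1 : ∀ y', R z y y' → ∃ ξ, y' ∈ St ξ := by
      intro y' hR
      by_contra h2
      push Not at h2
      exact hcon y' h2 hR
    choose! g hg using h1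
    apply hy (⨆ y', Order.succ (g y'))
    rw [hSt]
    refine ⟨z, fun y' hR => ⟨g y', ?_, hg y' hR⟩⟩
    exact lt_of_lt_of_le (Order.lt_succ (g y'))
      (le_ciSup (f := fun y' => Order.succ (g y')) (Ordinal.bddAbove_of_small) y')
  · intro y hy
    simp only [mem_ofPred_eq, not_forall, not_not] at hy
    have hrk : y ∈ St (rk y) := csInf_mem (s := {ξ | y ∈ St ξ}) hy
    rw [hSt] at hrk
    obtain ⟨z, hz⟩ := hrk
    refine ⟨z, fun y' hR => ?_⟩
    obtain ⟨η, hη, hy'⟩ := hz y' hR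
    constructor
    · simp only [mem_ofPred_eq, not_forall, not_not]
      exact ⟨η, hy'⟩
    · exact lt_of_le_of_lt (csInf_le' hy') hη

end Pool.Agent.R598.Nm
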