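import Pool.Agent.R598.NambaBase

/-!
# Laver-like Namba forcing: the branch theorem
-/

namespace Pool.Agent.R598.Nm

open Cardinal Set

theorem stem_le {Ω : Type} (hΩ : #Ω = ℵ_ 2) {q r : Set (List Ω)} {s t : List Ω}
    (hq : IsNm q s) (hr : IsNm r t) (h : r ⊆ q) : s <+: t := by
  rcases hq.comp t (h hr.mem) with hc | hc
  · by_cases hts : t = s
    · rw [hts]
    · exfalso
      have hlt : t.length < s.length := by
        rcases lt_or_eq_of_le hc.length_le with h1 | h1
        · exact h1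
        · exact absurd (hc.eq_of_length h1) hts
      apply hr.big hΩ hr.mem List.prefix_rfl
      have hsub : {x | t ++ [x] ∈ r}.Subsingleton := by
        intro x hx y hy
        have hx' : t ++ [x] <+: s := by
          rcases hq.comp _ (h hx) with h1 | h1
          · exact h1
          · rw [h1.eq_of_length (le_antisymm h1.length_le (by simp; omega))]
        have hy' : t ++ [y] <+: s := by
          rcases hq.comp _ (h hy) with h1 | h1
          · exact h1
          · rw [h1.eq_of_length (le_antisymm h1.length_le (by simp; omega))]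
        have h3 : t ++ [x] = t ++ [y] := by
          rcases List.prefix_or_prefix_of_prefix hx' hy' with h | h
          · exact h.eq_of_length (by simp)
          · exact (h.eq_of_length (by simp)).symm
        simpa using h3
      unfold Small
      refine (Cardinal.mk_le_one_iff_set_subsingleton.2 hsub).trans ?_
      exact (Cardinal.one_lt_aleph0.le).trans (Cardinal.aleph0_le_aleph 1)
  · exact hc

/-- The data of a forcing relation for membership in a name for a cofinal branch,
below a fixed condition `p0`. -/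
structure BrData (Ω T : Type) [PartialOrder T] (p0 : Set (List Ω)) where
  F : Set (List Ω) → T → Prop
  ht : T → Ordinal.{0}
  mono : ∀ r r' v, r' ⊆ r → F r v → F r' v
  reg : ∀ r s v, IsNm r s → (∀ r' s', r' ⊆ r → IsNm r' s' →
    ∃ r'' s'', r'' ⊆ r' ∧ IsNm r'' s'' ∧ F r'' v) → F r v
  chain : ∀ r s v w, IsNm r s → r ⊆ p0 → F r v → F r w → v ≤ w ∨ w ≤ v
  down : ∀ r s v w, IsNm r s → r ⊆ p0 → v ≤ w → F r w → F r v
  htmono : StrictMono ht
  htlt : ∀ v, ht v < Ordinal.omega 1
  htct : ∀ α, {v | ht v = α}.Countable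
  cof : ∀ α < Ordinal.omega 1, ∀ r s, IsNm r s → r ⊆ p0 →
    ∃ r' s' v, r' ⊆ r ∧ IsNm r' s' ∧ ht v = α ∧ F r' v

variable {Ω T : Type} [PartialOrder T] {p0 : Set (List Ω)}

/-- purely decidable -/
def BrData.PD (D : BrData Ω T p0) (p : Set (List Ω)) (s : List Ω) (v : T) : Prop :=
  ∃ q ⊆ p, IsNm q s ∧ D.F q v

theorem BrData.PD.mono {D : BrData Ω T p0} {p p' : Set (List Ω)} {s : List Ω} {v : T}
    (h : D.PD p s v) (hp : p ⊆ p') : D.PD p' s v := by
  obtain ⟨q, hq, h1, h2⟩ := h
  exact ⟨q, hq.trans hp, h1, h2⟩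

theorem cone_sub_of_isNm {p r : Set (List Ω)} {t : List Ω} (hr : IsNm r t) (h : r ⊆ p) :
    r ⊆ cone p t := fun w hw => ⟨h hw, hr.comp w hw⟩

/-- If big many one-step extensions purely decide members with values in a set `B`, then so does
the node itself. -/
theorem BrData.pd_of_big (D : BrData Ω T p0) (hΩ : #Ω = ℵ_ 2) (hT : #T ≤ ℵ_ 1)
    {p : Set (List Ω)} {t : List Ω} {A : Set Ω} (hA : ¬ Small A) {B : Set T}
    (h : ∀ x ∈ A, ∃ v ∈ B, D.PD p (t ++ [x]) v) : ∃ v ∈ B, D.PD p t v := by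
  have hAne : A.Nonempty := by
    by_contra hcon
    rw [Set.not_nonempty_iff_eq_empty] at hcon
    rw [hcon] at hA
    apply hA
    unfold Small
    simp
  obtain ⟨x0, hx0⟩ := hAne
  obtain ⟨v0, -, -⟩ := h x0 hx0
  have : Nonempty T := ⟨v0⟩
  choose! v hvB hv using h
  obtain ⟨i, hi⟩ := exists_big_fiber hT hA v
  have hv' : ∀ x ∈ {x ∈ A | v x = i}, ∃ q ⊆ p, IsNm q (t ++ [x]) ∧ D.F q i := by
    rintro x ⟨hx, hxi⟩
    have := hv x hx
    rw [hxi] at this
    exact this
  choose! q hqp hq hF using hv'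
  obtain ⟨r, hrp, hr, hdense⟩ := amalgam (p := p) hΩ hi q hq hqp
  refine ⟨i, ?_, r, hrp, hr, ?_⟩
  · have hne : ({x ∈ A | v x = i} : Set Ω).Nonempty := by
      by_contra hcon
      rw [Set.not_nonempty_iff_eq_empty] at hcon
      rw [hcon] at hi
      apply hi
      unfold Small
      simp
    obtain ⟨x, hx, hxi⟩ := hne
    rw [← hxi]
    exact hvB x hx
  · apply D.reg r t i hr
    intro r' s' hr' hs'
    obtain ⟨x, hx, r'', s'', h1, h2, h3⟩ := hdense r' s' hr' hs'
    exact ⟨r'', s'', h1, h2, D.mono _ _ _ h3 (hF x hx)⟩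

/-- Pure decision. -/
theorem BrData.pure_dec (D : BrData Ω T p0) (hΩ : #Ω = ℵ_ 2) (hT : #T ≤ ℵ_ 1)
    {p : Set (List Ω)} {s : List Ω} (hp : IsNm p s) (hpp : p ⊆ p0) {α : Ordinal.{0}}
    (hα : α < Ordinal.omega 1) : ∃ v, D.ht v = α ∧ D.PD p s v := by
  by_contra hcon
  obtain ⟨q, hqp, hq, hbad⟩ := prune hΩ hp
    (fun t => ∃ v ∈ {v | D.ht v = α}, D.PD p t v)
    (by rintro ⟨v, hv, h⟩; exact hcon ⟨v, hv, h⟩)
    (by
      intro t ht hst hnb
      by_contra hbig
      apply hnb
      exact D.pd_of_big hΩ hT hbig (fun x hx => hx.2))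
  obtain ⟨r, t, v, hrq, hr, hv, hF⟩ := D.cof α hα q s hq (hqp.trans hpp)
  exact hbad t (hrq hr.mem) (stem_le hΩ hq hr hrq) ⟨v, hv, r, hrq.trans hqp, hr, hF⟩

/-- From a condition all of whose purely decidable nodes are comparable we get the theorem. -/
theorem BrData.of_branchType (D : BrData Ω T p0) (hΩ : #Ω = ℵ_ 2) (hT : #T ≤ ℵ_ 1)
    {p : Set (List Ω)} {s : List Ω} (hp : IsNm p s) (hpp : p ⊆ p0)
    (hBT : ∀ v w, D.PD p s v → D.PD p s w → v ≤ w ∨ w ≤ v) :
    ∃ q ⊆ p, IsNm q s ∧ (∀ v ∈ {v | D.PD p s v}, D.F q v) ∧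
      (∀ v ∉ {v | D.PD p s v}, ∀ r t, r ⊆ q → IsNm r t → ¬ D.F r v) := by
  obtain ⟨q, hqp, hq, hbad⟩ := prune hΩ hp
    (fun t => ∃ v ∈ {v | ¬ D.PD p s v}, D.PD p t v)
    (by rintro ⟨v, hv, h⟩; exact hv h)
    (by
      intro t ht hst hnb
      by_contra hbig
      apply hnb
      exact D.pd_of_big hΩ hT hbig (fun x hx => hx.2))
  have h1 : ∀ v ∉ {v | D.PD p s v}, ∀ r t, r ⊆ q → IsNm r t → ¬ D.F r v := by
    intro v hv r t hrq hr hF
    exact hbad t (hrq hr.mem) (stem_le hΩ hq hr hrq) ⟨v, hv, r, hrq.trans hqp, hr, hF⟩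
  refine ⟨q, hqp, hq, ?_, h1⟩
  intro v hv
  apply D.reg q s v hq
  intro r t hrq hr
  obtain ⟨r', t', w, hr', ht', hw, hF⟩ := D.cof (D.ht v) (D.htlt v) r t hr
    ((hrq.trans hqp).trans hpp)
  refine ⟨r', t', hr', ht', ?_⟩
  have hwb : D.PD p s w := by
    by_contra hcon
    exact h1 w hcon r' t' (hr'.trans hrq) ht' hF
  have : w = v := by
    rcases hBT w v hwb hv with h | h
    · rcases h.eq_or_lt with h | h
      · exact h
      · exact absurd hw (D.htmono h).ne
    · rcases h.eq_or_lt with h | h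
      · exact h.symm
      · exact absurd hw (D.htmono h).ne'
  rw [← this]; exact hF

/-- legal moves of the game for `a` -/
def BrData.Mv (D : BrData Ω T p0) (a : ℕ → T) (Z : {Z : Set Ω // Small Z})
    (y y' : List Ω × Set (List Ω)) : Prop :=
  ∃ β, β ∉ Z.1 ∧ y'.1 = y.1 ++ [β] ∧ IsNm y'.2 y'.1 ∧ y'.2 ⊆ y.2 ∧ D.F y'.2 (a y.1.length)

/-- nodes reachable by a strategy -/
inductive Reach (B : List Ω → Set (List Ω) → Set Ω)
    (nxt : List Ω → Set (List Ω) → Ω → Set (List Ω)) (s : List Ω) (p : Set (List Ω))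
    : List Ω → Set (List Ω) → Prop
  | base : Reach B nxt s p s p
  | step (l : List Ω) (r : Set (List Ω)) (β : Ω) : Reach B nxt s p l r →
      β ∈ B l r → Reach B nxt s p (l ++ [β]) (nxt l r β)

/-- a node in the winning region gives a condition -/
theorem BrData.winning (D : BrData Ω T p0) (hΩ : #Ω = ℵ_ 2) (a : ℕ → T)
    {s : List Ω} {p : Set (List Ω)} (hp : IsNm p s)
    (W : Set (List Ω × Set (List Ω))) (hW : ∀ y ∈ W, ∀ Z, ∃ y' ∈ W, D.Mv a Z y y')
    (hpW : (s, p) ∈ W) :
    ∃ q ⊆ p, IsNm q s ∧ ∀ k, s.length ≤ k → D.F q (a k) := by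
  classical
  let G : List Ω → Set (List Ω) → Ω → Set (List Ω) → Prop := fun l r β r' =>
    (l ++ [β], r') ∈ W ∧ IsNm r' (l ++ [β]) ∧ r' ⊆ r ∧ D.F r' (a l.length)
  let B : List Ω → Set (List Ω) → Set Ω := fun l r => {β | ∃ r', G l r β r'}
  let nxt : List Ω → Set (List Ω) → Ω → Set (List Ω) := fun l r β =>
    if h : ∃ r', G l r β r' then h.choose else ∅
  have hnxt : ∀ l r β, β ∈ B l r → G l r β (nxt l r β) := by
    intro l r β h
    have h' : ∃ r', G l r β r' := h
    simp only [nxt, dif_pos h']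
    exact h'.choose_spec
  have hB : ∀ l r, (l, r) ∈ W → ¬ Small (B l r) := by
    intro l r hlr hsm
    obtain ⟨⟨l', r'⟩, hy', β, hβ, h1, h2, h3, h4⟩ := hW (l, r) hlr ⟨B l r, hsm⟩
    simp only at h1 h2 h3 h4
    subst h1
    exact hβ ⟨r', hy', h2, h3, h4⟩
  have hR1 : ∀ l r, Reach B nxt s p l r → (l, r) ∈ W ∧ IsNm r l ∧ r ⊆ p ∧ s <+: l := by
    intro l r h
    induction h with
    | base => exact ⟨hpW, hp, subset_rfl, List.prefix_rfl⟩
    | step l r β h hβ ih =>
      obtain ⟨g1, g2, g3, g4⟩ := hnxt l r β hβ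
      exact ⟨g1, g2, g3.trans ih.2.2.1, ih.2.2.2.trans (List.prefix_append _ _)⟩
  have hR2' : ∀ l r, Reach B nxt s p l r → ∀ l' r', Reach B nxt s p l' r' → l' = l →
      r = r' := by
    intro l r h
    induction h with
    | base =>
      intro l' r' h' hl
      cases h' with
      | base => rfl
      | step l r β h hβ =>
        have := (hR1 l r h).2.2.2.length_le
        have h9 := congrArg List.length hl
        simp at h9
        omega
    | step l r β h hβ ih =>
      intro l' r' h' hl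
      cases h' with
      | base =>
        have := (hR1 l r h).2.2.2.length_le
        have h9 := congrArg List.length hl
        simp at h9
        omega
      | step l2 r2 β2 h2 hβ2 =>
        have h3 : l2 = l ∧ β2 = β := by
          have := List.append_inj' hl rfl
          exact ⟨this.1, by simpa using this.2⟩
        obtain ⟨rfl, rfl⟩ := h3
        rw [ih _ r2 h2 rfl]
  have hR2 : ∀ l r, Reach B nxt s p l r → ∀ r', Reach B nxt s p l r' → r = r' :=
    fun l r h r' h' => hR2' l r h l r' h' rfl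
  have hR3 : ∀ l r, Reach B nxt s p l r → ∀ u, s <+: u → u <+: l →
      ∃ r', Reach B nxt s p u r' ∧ r ⊆ r' := by
    intro l r h
    induction h with
    | base =>
      intro u hsu hus
      have : u = s := hus.eq_of_length (le_antisymm hus.length_le hsu.length_le)
      subst this
      exact ⟨p, Reach.base, subset_rfl⟩
    | step l r β h hβ ih =>
      intro u hsu hus
      rcases List.prefix_concat_iff.1 hus with h1 | h1
      · subst h1
        exact ⟨_, Reach.step l r β h hβ, subset_rfl⟩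
      · obtain ⟨r', hr', hrr⟩ := ih u hsu h1
        exact ⟨r', hr', ((hnxt l r β hβ).2.2.1).trans hrr⟩
  have hqIs : IsNm {l | l <+: s ∨ ∃ r, Reach B nxt s p l r} s := by
    refine ⟨?_, ?_, ?_, ?_⟩
    · rintro t u (hu | ⟨r, hr⟩) htu
      · exact Or.inl (htu.trans hu)
      · rcases List.prefix_or_prefix_of_prefix htu (hR1 u r hr).2.2.2 with h | h
        · exact Or.inl h
        · obtain ⟨r', hr', -⟩ := hR3 u r hr t h htu
          exact Or.inr ⟨r', hr'⟩
    · exact Or.inl List.prefix_rfl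
    · rintro t (ht | ⟨r, hr⟩)
      · exact Or.inl ht
      · exact Or.inr (hR1 t r hr).2.2.2
    · intro t ht hst
      have ht' : ∃ r, Reach B nxt s p t r := by
        rcases ht with ht | ht
        · have : t = s := ht.eq_of_length (le_antisymm ht.length_le hst.length_le)
          subst this
          exact ⟨p, Reach.base⟩
        · exact ht
      obtain ⟨r, hr⟩ := ht'
      rw [← not_small_iff hΩ]
      intro hsm
      apply hB t r (hR1 t r hr).1
      refine hsm.mono ?_
      intro β hβ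
      exact Or.inr ⟨_, Reach.step t r β hr hβ⟩
  refine ⟨{l | l <+: s ∨ ∃ r, Reach B nxt s p l r}, ?_, hqIs, ?_⟩
  · rintro l (hl | ⟨r, hr⟩)
    · exact hp.down l s hp.mem hl
    · obtain ⟨-, h2, h3, -⟩ := hR1 l r hr
      exact h3 h2.mem
  · intro k hk
    apply D.reg _ s _ hqIs
    intro r' s' hr' hs'
    obtain ⟨u, hu, hsu, hlen⟩ := hs'.exists_long hΩ (k + 1)
    refine ⟨cone r' u, u, cone_sub _ _, cone_isNm hs' hu hsu, ?_⟩
    have hu' : ∃ r, Reach B nxt s p u r := by
      rcases hr' hu with h | h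
      · have := h.length_le; omega
      · exact h
    obtain ⟨ru, hru⟩ := hu'
    have hsu2 : s <+: u := (hR1 u ru hru).2.2.2
    -- the node of length k + 1
    have hw1 : u.take (k + 1) <+: u := List.take_prefix _ _
    have hw2 : s <+: u.take (k + 1) := by
      rcases List.prefix_or_prefix_of_prefix hsu2 hw1 with h | h
      · exact h
      · have h1 := h.length_le
        rw [List.length_take_of_le hlen] at h1
        omega
    obtain ⟨rw1, hrw1, hsub⟩ := hR3 u ru hru (u.take (k + 1)) hw2 hw1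
    have hF : D.F rw1 (a k) := by
      generalize hl : u.take (k + 1) = l1 at hrw1
      have hll : l1.length = k + 1 := by rw [← hl, List.length_take_of_le hlen]
      cases hrw1 with
      | base => omega
      | step l r β h hβ =>
        have : l.length = k := by simpa using hll
        have h5 := (hnxt l r β hβ).2.2.2
        rw [this] at h5
        exact h5
    apply D.mono _ _ _ ?_ hF
    rintro w ⟨hw, hc⟩
    rcases hc with hc | hc
    · have hum : u ∈ rw1 := hsub (hR1 u ru hru).2.1.mem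
      exact (hR1 _ _ hrw1).2.1.down w u hum hc
    · have hw' : ∃ r, Reach B nxt s p w r := by
        rcases hr' hw with h | h
        · have := h.length_le
          have := hc.length_le
          omega
        · exact h
      obtain ⟨r2, hr2⟩ := hw'
      obtain ⟨r3, hr3, h3⟩ := hR3 w r2 hr2 (u.take (k + 1)) hw2 (hw1.trans hc)
      rw [hR2 _ _ hrw1 _ hr3]
      exact h3 (hR1 w r2 hr2).2.1.mem

/-- reversed restriction of a binary sequence -/
def rst (f : ℕ → Bool) : ℕ → List Bool
  | 0 => []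
  | n + 1 => f n :: rst f n

theorem rst_congr {f g : ℕ → Bool} (n : ℕ) (h : ∀ m < n, f m = g m) : rst f n = rst g n := by
  induction n with
  | zero => rfl
  | succ n ih =>
    simp only [rst]
    rw [ih (fun m hm => h m (Nat.lt_succ_of_lt hm)), h n (Nat.lt_succ_self n)]

theorem BrData.exists_branchType (D : BrData Ω T p0) (hΩ : #Ω = ℵ_ 2) (hT : #T ≤ ℵ_ 1)
    (hCH : (𝔠 : Cardinal.{0}) = ℵ_ 1) {s0 : List Ω} (hp0 : IsNm p0 s0) :
    ∃ q ⊆ p0, ∃ t, IsNm q t ∧ ∀ v w, D.PD q t v → D.PD q t w → v ≤ w ∨ w ≤ v := by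
  classical
  by_contra hcon
  push Not at hcon
  -- the number of games
  have hgames : #(ℕ → T) ≤ ℵ_ 1 := by
    rw [← Cardinal.power_def, Cardinal.mk_nat]
    calc #T ^ ℵ₀ ≤ (ℵ_ 1) ^ ℵ₀ := Cardinal.power_le_power_right hT
      _ = 𝔠 ^ ℵ₀ := by rw [hCH]
      _ = 𝔠 := Cardinal.continuum_power_aleph0
      _ = ℵ_ 1 := hCH
  have hgs := fun a : ℕ → T => galeStewart (D.Mv a)
  choose W rk hW1 hW2 using hgs
  have hW2' : ∀ (a : ℕ → T) (y : List Ω × Set (List Ω)), ∃ Z : {Z : Set Ω // Small Z},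
      y ∉ W a → ∀ y', D.Mv a Z y y' → y' ∉ W a ∧ rk a y' < rk a y := by
    intro a y
    by_cases hy : y ∈ W a
    · exact ⟨⟨∅, by unfold Small; simp⟩, fun h => absurd hy h⟩
    · obtain ⟨Z, hZ⟩ := hW2 a y hy
      exact ⟨Z, fun _ => hZ⟩
  choose Zc hZc using hW2'
  let Zs : List Ω × Set (List Ω) → Set Ω := fun y => ⋃ a, (Zc a y).1
  have hZs : ∀ y, Small (Zs y) := fun y => small_iUnion hgames (fun a => (Zc a y).2)
  -- one step
  have hstep : ∀ y : {y : List Ω × Set (List Ω) // IsNm y.2 y.1 ∧ y.2 ⊆ p0},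
      ∃ (z : Bool → {y : List Ω × Set (List Ω) // IsNm y.2 y.1 ∧ y.2 ⊆ p0}) (v : Bool → T),
        (∃ β ∉ Zs y.1, ∀ b, (z b).1.1 = y.1.1 ++ [β]) ∧ (∀ b, (z b).1.2 ⊆ y.1.2) ∧
        (∀ b, D.F (z b).1.2 (v b)) ∧ ¬ (v true ≤ v false ∨ v false ≤ v true) := by
    rintro ⟨⟨t, r⟩, hr, hrp⟩
    simp only at hr hrp
    have hbig := hr.big hΩ hr.mem List.prefix_rfl
    have : ∃ β, β ∉ Zs (t, r) ∧ t ++ [β] ∈ r := by
      by_contra hno
      push Not at hno
      apply hbig
      refine (hZs (t, r)).mono ?_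
      intro β hβ
      by_contra hβ2
      exact hno β hβ2 hβ
    obtain ⟨β, hβ, hβr⟩ := this
    have hc := cone_isNm hr hβr (List.prefix_append _ _)
    obtain ⟨v, w, ⟨q1, hq1, hq1', hF1⟩, ⟨q2, hq2, hq2', hF2⟩, h1, h2⟩ :=
      hcon (cone r (t ++ [β])) ((cone_sub _ _).trans hrp) (t ++ [β]) hc
    refine ⟨fun b => bif b then ⟨(t ++ [β], q1), hq1', (hq1.trans (cone_sub _ _)).trans hrp⟩
      else ⟨(t ++ [β], q2), hq2', (hq2.trans (cone_sub _ _)).trans hrp⟩,
      fun b => bif b then v else w, ⟨β, hβ, ?_⟩, ?_, ?_, ?_⟩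
    · intro b; cases b <;> rfl
    · intro b; cases b
      · exact hq2.trans (cone_sub _ _)
      · exact hq1.trans (cone_sub _ _)
    · intro b; cases b
      · exact hF2
      · exact hF1
    · simp only [cond_true, cond_false, not_or]
      exact ⟨h1, h2⟩
  choose nx vl hn1 hn2 hn3 hn4 using hstep
  let y0 : {y : List Ω × Set (List Ω) // IsNm y.2 y.1 ∧ y.2 ⊆ p0} :=
    ⟨(s0, p0), hp0, subset_rfl⟩
  let X : List Bool → {y : List Ω × Set (List Ω) // IsNm y.2 y.1 ∧ y.2 ⊆ p0} :=
    fun l => List.rec y0 (fun b _ y => nx y b) l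
  have hX0 : X [] = y0 := rfl
  have hX1 : ∀ b l, X (b :: l) = nx (X l) b := fun b l => rfl
  let af : (ℕ → Bool) → ℕ → T := fun f k =>
    vl (X (rst f (k - s0.length))) (f (k - s0.length))
  have hlen : ∀ (f : ℕ → Bool) n, (X (rst f n)).1.1.length = s0.length + n := by
    intro f n
    induction n with
    | zero => rfl
    | succ n ih =>
      simp only [rst]
      rw [hX1]
      obtain ⟨β, -, hβ⟩ := hn1 (X (rst f n))
      rw [hβ, List.length_append, ih]
      rfl
  have hmv : ∀ (f : ℕ → Bool) n, D.Mv (af f) (Zc (af f) (X (rst f n)).1) (X (rst f n)).1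
      (X (rst f (n + 1))).1 := by
    intro f n
    obtain ⟨β, hβ1, hβ⟩ := hn1 (X (rst f n))
    refine ⟨β, ?_, ?_, ?_, ?_, ?_⟩
    · intro h
      exact hβ1 (mem_iUnion.2 ⟨af f, h⟩)
    · simp only [rst]; rw [hX1, hβ]
    · exact (X (rst f (n + 1))).2.1
    · simp only [rst]; rw [hX1]; exact hn2 _ _
    · simp only [rst]; rw [hX1, hlen]
      have : af f (s0.length + n) = vl (X (rst f n)) (f n) := by
        simp only [af, Nat.add_sub_cancel_left]
      rw [this]
      exact hn3 _ _
  have hwin : ∀ f : ℕ → Bool, (s0, p0) ∈ W (af f) := by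
    intro f
    by_contra hno
    have h1 : ∀ n, (X (rst f n)).1 ∉ W (af f) := by
      intro n
      induction n with
      | zero => exact hno
      | succ n ih => exact (hZc (af f) _ ih _ (hmv f n)).1
    have h2 : ∀ n, rk (af f) (X (rst f (n + 1))).1 < rk (af f) (X (rst f n)).1 :=
      fun n => (hZc (af f) _ (h1 n) _ (hmv f n)).2
    obtain ⟨n, hn⟩ : ∃ n, ∀ m, rk (af f) (X (rst f n)).1 ≤ rk (af f) (X (rst f m)).1 := by
      have hne : (Set.range fun n => rk (af f) (X (rst f n)).1).Nonempty := ⟨_, 0, rfl⟩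
      obtain ⟨n, hn⟩ := csInf_mem hne
      refine ⟨n, fun m => ?_⟩
      simp only at hn
      rw [hn]
      exact csInf_le' ⟨m, rfl⟩
    exact absurd (h2 n) (not_lt.2 (hn (n + 1)))
  have hq : ∀ f : ℕ → Bool, ∃ q ⊆ p0, IsNm q s0 ∧ ∀ k, s0.length ≤ k → D.F q (af f k) :=
    fun f => D.winning hΩ (af f) hp0 (W (af f)) (hW1 (af f)) (hwin f)
  -- a common level
  obtain ⟨δ, hδ, hδ2⟩ : ∃ δ < Ordinal.omega 1, ∀ l b, D.ht (vl (X l) b) < δ := by
    obtain ⟨e, he⟩ := exists_surjective_nat (List Bool × Bool)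
    refine ⟨⨆ n, Order.succ (D.ht (vl (X (e n).1) (e n).2)), ?_, ?_⟩
    · apply Ordinal.iSup_lt_omega_one
      intro n
      have hlim : Order.IsSuccLimit (Ordinal.omega.{0} 1) := by
        rw [← Cardinal.ord_aleph]
        exact Cardinal.isSuccLimit_ord (Cardinal.aleph0_le_aleph 1)
      exact hlim.succ_lt (D.htlt _)
    · intro l b
      obtain ⟨n, hn⟩ := he (l, b)
      have : D.ht (vl (X l) b) < Order.succ (D.ht (vl (X (e n).1) (e n).2)) := by
        rw [hn]; exact Order.lt_succ _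
      exact lt_of_lt_of_le this
        (le_ciSup (f := fun n => Order.succ (D.ht (vl (X (e n).1) (e n).2)))
          (Ordinal.bddAbove_of_small) n)
  have hwf : ∀ f : ℕ → Bool, ∃ w r s, IsNm r s ∧ r ⊆ p0 ∧ D.ht w = δ ∧ D.F r w ∧
      ∀ k, s0.length ≤ k → D.F r (af f k) := by
    intro f
    obtain ⟨q, hq0, hq1, hq2⟩ := hq f
    obtain ⟨r, s, w, hr, hrs, hw, hF⟩ := D.cof δ hδ q s0 hq1 hq0
    exact ⟨w, r, s, hrs, hr.trans hq0, hw, hF, fun k hk => D.mono _ _ _ hr (hq2 k hk)⟩
  choose wf rf sf h1 h2 h3 h4 h5 using hwf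
  have hinj : Function.Injective wf := by
    intro f g hfg
    by_contra hne
    have hex : ∃ n, f n ≠ g n := by
      by_contra h; push Not at h; exact hne (funext h)
    let n := Nat.find hex
    have hn : f n ≠ g n := Nat.find_spec hex
    have hmin : ∀ m < n, f m = g m := fun m hm => by
      have := Nat.find_min hex hm
      push Not at this
      exact this
    have hrs : rst f n = rst g n := rst_congr n hmin
    have haf : af f (s0.length + n) = vl (X (rst f n)) (f n) := by
      simp only [af, Nat.add_sub_cancel_left]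
    have hag : af g (s0.length + n) = vl (X (rst f n)) (g n) := by
      simp only [af, Nat.add_sub_cancel_left]
      rw [hrs]
    have key : ∀ f', wf f' = wf f → D.F (rf f) (af f' (s0.length + n)) := by
      intro f' hf'
      have hlt : D.ht (af f' (s0.length + n)) < δ := hδ2 _ _
      have hle : af f' (s0.length + n) ≤ wf f' := by
        rcases D.chain (rf f') (sf f') _ _ (h1 f') (h2 f') (h5 f' (s0.length + n)
          (Nat.le_add_right _ _)) (h4 f') with h | h
        · exact h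
        · rcases h.eq_or_lt with h' | h'
          · rw [h']
          · have := D.htmono h'
            rw [h3] at this
            exact absurd hlt (not_lt.2 this.le)
      rw [hf'] at hle
      exact D.down (rf f) (sf f) _ _ (h1 f) (h2 f) hle (h4 f)
    have k1 := key f rfl
    have k2 := key g hfg.symm
    rw [haf] at k1
    rw [hag] at k2
    have hcmp := D.chain _ _ _ _ (h1 f) (h2 f) k1 k2
    have hinc := hn4 (X (rst f n))
    cases hfn : f n <;> cases hgn : g n
    · exact hn (hfn.trans hgn.symm)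
    · rw [hfn, hgn] at hcmp
      exact hinc hcmp.symm
    · rw [hfn, hgn] at hcmp
      exact hinc hcmp
    · exact hn (hfn.trans hgn.symm)
  have hct : (Set.range wf).Countable := by
    refine (D.htct δ).mono ?_
    rintro _ ⟨f, rfl⟩
    exact h3 f
  have hct2 : Countable (ℕ → Bool) := by
    rw [Set.countable_coe_iff.symm] at hct
    exact (Equiv.ofInjective wf hinj).countable_iff.2 hct
  have : (𝔠 : Cardinal.{0}) ≤ ℵ₀ := by
    have h6 : #(ℕ → Bool) ≤ ℵ₀ := Cardinal.mk_le_aleph0_iff.2 hct2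
    have h7 : #(ℕ → Bool) = 𝔠 := by
      rw [← Cardinal.power_def, Cardinal.mk_nat, Cardinal.mk_bool]
      exact Cardinal.two_power_aleph0
    rwa [h7] at h6
  exact absurd Cardinal.aleph0_lt_continuum (not_lt.2 this)

end Pool.Agent.R598.Nm
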