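import Mathlib

/-!
# Tree forcings: basic definitions and bit bookkeeping
-/

namespace Pool.Agent.R598.TF

open Set

universe u

section Defs

variable {Λ : Type}

/-- The restriction `x ↾ n`. -/
def res (x : ℕ → Λ) (n : ℕ) : List Λ := (List.range n).map x

/-- The body `[T]` of a tree. -/
def body (T : Set (List Λ)) : Set (ℕ → Λ) := {x | ∀ n, res x n ∈ T}

/-- Perfect trees: closed under initial segments, nonempty, every node has two incompatible
extensions. -/
structure IsPerfect (T : Set (List Λ)) : Prop where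
  down : ∀ s t, t ∈ T → s <+: t → s ∈ T
  ne : T.Nonempty
  split : ∀ s ∈ T, ∃ t₁ ∈ T, ∃ t₂ ∈ T, s <+: t₁ ∧ s <+: t₂ ∧ ¬ t₁ <+: t₂ ∧ ¬ t₂ <+: t₁

/-- The subtree `T_s` of nodes comparable with `s`. -/
def sub (T : Set (List Λ)) (s : List Λ) : Set (List Λ) := {t ∈ T | t <+: s ∨ s <+: t}

/-- A tree forcing: a collection of perfect trees containing the full tree and closed under
`T ↦ T_s`. -/
structure IsTreeForcing (P : Set (Set (List Λ))) : Prop where
  perfect : ∀ T ∈ P, IsPerfect T
  full : (Set.univ : Set (List Λ)) ∈ P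
  sub : ∀ T ∈ P, ∀ s ∈ T, sub T s ∈ P

/-- `A` is `P`-nowhere dense. -/
def NowhereDense (P : Set (Set (List Λ))) (A : Set (ℕ → Λ)) : Prop :=
  ∀ T ∈ P, ∃ S ∈ P, S ⊆ T ∧ body S ∩ A = ∅

/-- `A` is in the σ-ideal generated by the `P`-nowhere dense sets. -/
def InIdeal (P : Set (Set (List Λ))) (A : Set (ℕ → Λ)) : Prop :=
  ∃ N : ℕ → Set (ℕ → Λ), (∀ n, NowhereDense P (N n)) ∧ A ⊆ ⋃ n, N n

/-- `A` is `P`-measurable. -/
def PMeasurable (P : Set (Set (List Λ))) (A : Set (ℕ → Λ)) : Prop :=
  ∀ T ∈ P, ∃ S ∈ P, S ⊆ T ∧ (InIdeal P (body S \ A) ∨ InIdeal P (body S ∩ A))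

/-- agreement below `n` -/
def Ag (x y : ℕ → Λ) (n : ℕ) : Prop := ∀ i < n, x i = y i

theorem Ag.refl (x : ℕ → Λ) (n : ℕ) : Ag x x n := fun _ _ => rfl

theorem Ag.symm {x y : ℕ → Λ} {n : ℕ} (h : Ag x y n) : Ag y x n := fun i hi => (h i hi).symm

theorem Ag.trans {x y z : ℕ → Λ} {n : ℕ} (h : Ag x y n) (h' : Ag y z n) : Ag x z n :=
  fun i hi => (h i hi).trans (h' i hi)

theorem Ag.mono {x y : ℕ → Λ} {n m : ℕ} (h : Ag x y n) (hm : m ≤ n) : Ag x y m :=
  fun i hi => h i (lt_of_lt_of_le hi hm)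

@[simp] theorem length_res (x : ℕ → Λ) (n : ℕ) : (res x n).length = n := by simp [res]

theorem res_eq_iff {x y : ℕ → Λ} {n : ℕ} : res x n = res y n ↔ Ag x y n := by
  unfold res Ag
  rw [List.map_inj_left]
  simp

theorem res_prefix (x : ℕ → Λ) {m n : ℕ} (h : m ≤ n) : res x m <+: res x n := by
  unfold res
  apply List.IsPrefix.map
  obtain ⟨k, rfl⟩ := Nat.exists_eq_add_of_le h
  rw [List.range_add]
  exact List.prefix_append _ _

theorem eq_res_of_prefix {x : ℕ → Λ} {n : ℕ} {t : List Λ} (h : t <+: res x n) :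
    t = res x t.length := by
  have hl : t.length ≤ n := by simpa using h.length_le
  have h2 := res_prefix x hl
  rcases List.prefix_or_prefix_of_prefix h h2 with h3 | h3
  · exact h3.eq_of_length (by simp)
  · exact (h3.eq_of_length (by simp)).symm

theorem exists_res (t : List Bool) : ∃ x : ℕ → Bool, res x t.length = t := by
  refine ⟨fun n => t.getD n false, ?_⟩
  unfold res
  apply List.ext_getElem
  · simp
  · intro i h1 h2
    simp [h2]

end Defs

/-! ### Bits -/

abbrev X := ℕ → Bool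

/-- Columns: `(κ, none)` is the column `z^κ`, and `(κ, some j)` is the column `y^{κ,j}`. -/
abbrev Col := List ℕ × Option ℕ

/-- The bit of column `c` number `m`. -/
def bit (c : Col) (m : ℕ) : ℕ := Encodable.encode (c, m)

theorem bit_inj {c c' : Col} {m m' : ℕ} (h : bit c m = bit c' m') : c = c' ∧ m = m' := by
  have := Encodable.encode_injective h
  exact Prod.ext_iff.1 this

theorem le_bit (c : Col) (m : ℕ) : m ≤ bit c m := by
  unfold bit
  rw [Encodable.encode_prod_val]
  exact Nat.right_le_pair _ _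

/-- column of the bit `n` -/
def colOf (n : ℕ) : Col := (Denumerable.ofNat (Col × ℕ) n).1

/-- index of the bit `n` -/
def idxOf (n : ℕ) : ℕ := (Denumerable.ofNat (Col × ℕ) n).2

@[simp] theorem colOf_bit (c : Col) (m : ℕ) : colOf (bit c m) = c := by
  unfold colOf bit
  rw [Denumerable.ofNat_encode]

@[simp] theorem idxOf_bit (c : Col) (m : ℕ) : idxOf (bit c m) = m := by
  unfold idxOf bit
  rw [Denumerable.ofNat_encode]

@[simp] theorem bit_colOf_idxOf (n : ℕ) : bit (colOf n) (idxOf n) = n := by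
  unfold idxOf colOf bit
  rw [Prod.mk.eta, Denumerable.encode_ofNat]

/-- the real coded in column `c` -/
def col (x : X) (c : Col) : X := fun m => x (bit c m)

/-- eventually-false reals -/
def q (σ : List Bool) : X := fun m => σ.getD m false

/-- Constraint sets: pairs `(c, r)` saying that column `c` of `x` is `r`. -/
def Sat (S : Set (Col × X)) (x : X) : Prop := ∀ p ∈ S, col x p.1 = p.2

/-- mentioned columns -/
def dom (S : Set (Col × X)) : Set Col := {c | ∃ r, (c, r) ∈ S}

theorem Sat.mono {S S' : Set (Col × X)} {x : X} (h : Sat S' x) (hS : S ⊆ S') : Sat S x :=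
  fun p hp => h p (hS hp)

theorem sat_union {S S' : Set (Col × X)} {x : X} : Sat (S ∪ S') x ↔ Sat S x ∧ Sat S' x := by
  constructor
  · intro h
    exact ⟨h.mono subset_union_left, h.mono subset_union_right⟩
  · rintro ⟨h1, h2⟩ p (hp | hp)
    · exact h1 p hp
    · exact h2 p hp

open Classical in
/-- replace the columns in `K` of `x` by those of `y` -/
noncomputable def rep (K : Set Col) (y x : X) : X := fun n => if colOf n ∈ K then y n else x n

theorem col_rep_mem {K : Set Col} {y x : X} {c : Col} (h : c ∈ K) :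
    col (rep K y x) c = col y c := by
  funext m
  simp [col, rep, h]

theorem col_rep_not_mem {K : Set Col} {y x : X} {c : Col} (h : c ∉ K) :
    col (rep K y x) c = col x c := by
  funext m
  simp [col, rep, h]

theorem ext_col {x y : X} (h : ∀ c, col x c = col y c) : x = y := by
  funext n
  have := congrFun (h (colOf n)) (idxOf n)
  simpa [col] using this

theorem rep_ag {K : Set Col} {y x x' : X} {n : ℕ} (h : Ag x x' n) :
    Ag (rep K y x) (rep K y x') n := by
  intro i hi
  unfold rep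
  split_ifs
  · rfl
  · exact h i hi

/-- density of `O` in the closed set of `S` -/
def Good (S : Set (Col × X)) (O : Set X) : Prop :=
  ∀ x, Sat S x → ∀ n, ∃ x', Sat S x' ∧ x' ∈ O ∧ Ag x' x n

theorem good_univ (S : Set (Col × X)) : Good S Set.univ :=
  fun x hx n => ⟨x, hx, trivial, Ag.refl x n⟩

/-- (a) -/
theorem good_rep {S S' : Set (Col × X)} (hSS : S ⊆ S') {y0 : X} (hy : Sat S' y0) {O : Set X}
    (h : Good S' O) : Good S {x | rep (dom S') y0 x ∈ O} := by
  intro x hx n
  have hy1 : Sat S' (rep (dom S') y0 x) := by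
    intro p hp
    rw [col_rep_mem (⟨p.2, hp⟩ : p.1 ∈ dom S')]
    exact hy p hp
  obtain ⟨y', hy', hO, hag⟩ := h _ hy1 n
  refine ⟨rep (dom S') x y', ?_, ?_, ?_⟩
  · intro p hp
    rw [col_rep_mem (⟨p.2, hSS hp⟩ : p.1 ∈ dom S')]
    exact hx p hp
  · have : rep (dom S') y0 (rep (dom S') x y') = y' := by
      apply ext_col
      intro c
      by_cases hc : c ∈ dom S'
      · rw [col_rep_mem hc]
        obtain ⟨r, hr⟩ := hc
        rw [hy _ hr, hy' _ hr]
      · rw [col_rep_not_mem hc, col_rep_not_mem hc]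
    show rep (dom S') y0 (rep (dom S') x y') ∈ O
    rw [this]; exact hO
  · intro i hi
    unfold rep
    split_ifs with h1
    · rfl
    · rw [hag i hi]
      unfold rep
      rw [if_neg h1]

/-- (b) -/
theorem good_union {S S' : Set (Col × X)} {y0 : X} (hy : Sat S' y0) {O : Set X}
    (h : Good S {x | rep (dom S') y0 x ∈ O}) : Good (S' ∪ S) O := by
  intro x hx n
  rw [sat_union] at hx
  obtain ⟨x', hx', hO, hag⟩ := h x hx.2 n
  refine ⟨rep (dom S') y0 x', ?_, hO, ?_⟩
  · rw [sat_union]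
    refine ⟨?_, ?_⟩
    · intro p hp
      rw [col_rep_mem (⟨p.2, hp⟩ : p.1 ∈ dom S')]
      exact hy p hp
    · intro p hp
      by_cases hc : p.1 ∈ dom S'
      · rw [col_rep_mem hc]
        obtain ⟨r, hr⟩ := hc
        have h1 := hy _ hr
        have h2 := hx.1 _ hr
        have h3 := hx.2 p hp
        simp only at h1 h2
        rw [h1, ← h2, h3]
      · rw [col_rep_not_mem hc]
        exact hx' p hp
  · intro i hi
    unfold rep
    split_ifs with h1
    · obtain ⟨r, hr⟩ := h1
      have h1 := hy _ hr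
      have h2 := hx.1 _ hr
      have h3 : col y0 (colOf i) = col x (colOf i) := h1.trans h2.symm
      have := congrFun h3 (idxOf i)
      simpa [col] using this
    · exact hag i hi

/-- the open set coded by `D` -/
def openOf (D : Set (List Bool)) : Set X := {x | ∃ n, res x n ∈ D}

theorem openOf_exists (O : Set X) (hO : ∀ x ∈ O, ∃ n, ∀ y, Ag y x n → y ∈ O) :
    ∃ D, openOf D = O := by
  refine ⟨{t | ∀ x, res x t.length = t → x ∈ O}, ?_⟩
  ext x
  constructor
  · rintro ⟨n, hn⟩
    exact hn x (by simp)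
  · intro hx
    obtain ⟨n, hn⟩ := hO x hx
    refine ⟨n, fun y hy => hn y ?_⟩
    rw [length_res] at hy
    exact res_eq_iff.1 hy

theorem openOf_open (D : Set (List Bool)) : ∀ x ∈ openOf D, ∃ n, ∀ y, Ag y x n → y ∈ openOf D := by
  rintro x ⟨n, hn⟩
  refine ⟨n, fun y hy => ⟨n, ?_⟩⟩
  rw [res_eq_iff.2 hy]; exact hn

abbrev Fam := ℕ → Set (List Bool)

def GoodF (S : Set (Col × X)) (D : Fam) : Prop := ∀ i, Good S (openOf (D i))

theorem exists_seq_of_step {α : Type*} (Inv : ℕ → α → Prop) (R : ℕ → α → α → Prop) (a0 : α)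
    (h0 : Inv 0 a0) (hs : ∀ n a, Inv n a → ∃ a', Inv (n + 1) a' ∧ R n a a') :
    ∃ f : ℕ → α, f 0 = a0 ∧ (∀ n, Inv n (f n)) ∧ ∀ n, R n (f n) (f (n + 1)) := by
  classical
  let F : (n : ℕ) → {a // Inv n a} := fun n =>
    Nat.rec ⟨a0, h0⟩ (fun n a => ⟨(hs n a.1 a.2).choose, (hs n a.1 a.2).choose_spec.1⟩) n
  refine ⟨fun n => (F n).1, rfl, fun n => (F n).2, fun n => ?_⟩
  exact (hs n (F n).1 (F n).2).choose_spec.2

end Pool.Agent.R598.TF
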