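import Pool.Agent.R598.TFCond

/-!
# The tree forcing: choice of the coding functions
-/

namespace Pool.Agent.R598.TF

open Set Cardinal

/-- injective choice from at most continuum many sets of size continuum -/
theorem inj_choice {I R : Type} (hI : #I ≤ 𝔠) (G : I → Set R) (hG : ∀ i, 𝔠 ≤ #(G i)) :
    ∃ f : I → R, Function.Injective f ∧ ∀ i, f i ∈ G i := by
  classical
  obtain ⟨r, wo, hr⟩ := Cardinal.exists_ord_eq I
  have hcard : ∀ i, #{j // r j i} < 𝔠 := by
    intro i
    have h1 := Cardinal.card_typein_lt (r := r) i hr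
    exact lt_of_lt_of_le h1 hI
  have hex : ∀ (i : I) (f : (j : I) → r j i → R), ∃ y ∈ G i, ∀ j (h : r j i), f j h ≠ y := by
    intro i f
    by_contra hcon
    push Not at hcon
    have hsub : G i ⊆ Set.range (fun j : {j // r j i} => f j.1 j.2) := by
      intro y hy
      obtain ⟨j, h, hj⟩ := hcon y hy
      exact ⟨⟨j, h⟩, hj⟩
    have h1 : #(G i) ≤ #{j // r j i} := (Cardinal.mk_le_mk_of_subset hsub).trans mk_range_le
    exact absurd (hG i) (not_le.2 (h1.trans_lt (hcard i)))
  choose y hy1 hy2 using hex
  let f : I → R := wo.wf.fix (C := fun _ => R) (fun i f => y i f)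
  have hf : ∀ i, f i = y i (fun j _ => f j) := fun i => wo.wf.fix_eq (C := fun _ => R) _ i
  refine ⟨f, ?_, fun i => ?_⟩
  · intro i j hij
    by_contra hne
    rcases trichotomous_of r i j with h | h | h
    · have := hy2 j (fun k _ => f k) i h
      rw [← hf j] at this
      exact this hij
    · exact hne h
    · have := hy2 i (fun k _ => f k) j h
      rw [← hf i] at this
      exact this hij.symm
  · rw [hf i]; exact hy1 i _

/-- one requirement -/
theorem one_req {S : Set (Col × X)} {c : Col} (hc : c ∉ dom S) {D : Set (List Bool)}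
    (hD : Good S (openOf D)) (s : List Bool) (ρ : List Bool) :
    ∃ ρ', ρ <+: ρ' ∧ ∀ u : X, res u ρ'.length = ρ' →
      (∃ x, Sat (insert (c, u) S) x ∧ res x s.length = s) →
      ∃ x, Sat (insert (c, u) S) x ∧ res x s.length = s ∧ x ∈ openOf D := by
  by_cases h : ∃ x, Sat S x ∧ res x s.length = s ∧ res (col x c) ρ.length = ρ
  · obtain ⟨x, h1, h2, h3⟩ := h
    -- bound for the bits of ρ
    obtain ⟨M, hM⟩ : ∃ M, ∀ m < ρ.length, bit c m < M :=
      ⟨(Finset.range ρ.length).sup (bit c) + 1, fun m hm =>
        Nat.lt_succ_of_le (Finset.le_sup (f := bit c) (Finset.mem_range.2 hm))⟩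
    obtain ⟨x', h4, h5, h6⟩ := hD x h1 (max M s.length)
    obtain ⟨N, hN⟩ := openOf_open D x' h5
    set N' := max N (max M s.length) with hN'
    refine ⟨res (col x' c) (max N' ρ.length), ?_, ?_⟩
    · have : ρ = res (col x' c) ρ.length := by
        rw [← h3, length_res, res_eq_iff]
        intro m hm
        simp only [col]
        exact (h6 _ (lt_of_lt_of_le (hM m hm) (le_max_left _ _))).symm
      nth_rw 1 [this]
      exact res_prefix _ (le_max_right _ _)
    · intro u hu _
      rw [length_res, res_eq_iff] at hu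
      have hag : Ag (rep {c} (fun n => u (idxOf n)) x') x' N' := by
        intro i hi
        unfold rep
        split_ifs with hci
        · rw [mem_singleton_iff] at hci
          have h7 : idxOf i ≤ i := by
            have := le_bit (colOf i) (idxOf i)
            rwa [bit_colOf_idxOf] at this
          show u (idxOf i) = x' i
          rw [hu (idxOf i) (by omega)]
          simp only [col]
          rw [← hci, bit_colOf_idxOf]
        · rfl
      refine ⟨rep {c} (fun n => u (idxOf n)) x', ?_, ?_, ?_⟩
      · rintro p (hp | hp)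
        · rw [hp]
          show col (rep {c} _ x') c = u
          rw [col_rep_mem (mem_singleton c)]
          funext m
          simp [col]
        · have : p.1 ∉ ({c} : Set Col) := by
            rintro h8
            rw [mem_singleton_iff] at h8
            exact hc ⟨p.2, by rw [← h8]; exact hp⟩
          rw [col_rep_not_mem this]
          exact h4 p hp
      · rw [← h2, length_res, res_eq_iff]
        exact (hag.mono (by omega)).trans (h6.mono (by omega))
      · exact hN _ (hag.mono (by omega))
  · refine ⟨ρ, List.prefix_rfl, ?_⟩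
    rintro u hu ⟨x, hx1, hx2⟩
    exfalso
    apply h
    refine ⟨x, hx1.mono (subset_insert _ _), hx2, ?_⟩
    have : col x c = u := hx1 (c, u) (mem_insert _ _)
    rw [this]; exact hu

/-- a perfect set of good reals -/
theorem perfect_good {S : Set (Col × X)} {c : Col} (hc : c ∉ dom S) {D : Fam}
    (hD : GoodF S D) (ρ : List Bool) :
    ∃ φ : X → X, Function.Injective φ ∧ ∀ r, res (φ r) ρ.length = ρ ∧
      GoodF (insert (c, φ r) S) D := by
  classical
  -- requirements enumerated
  have hreq := fun (p : ℕ × List Bool) (ρ : List Bool) => one_req hc (hD p.1) p.2 ρ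
  choose F hF1 hF2 using hreq
  obtain ⟨en, hen⟩ := exists_surjective_nat (ℕ × List Bool)
  let st : X → ℕ → List Bool := fun r n =>
    Nat.rec ρ (fun n t => F (en n) (t ++ [r n])) n
  have st0 : ∀ r, st r 0 = ρ := fun r => rfl
  have st1 : ∀ r n, st r (n + 1) = F (en n) (st r n ++ [r n]) := fun r n => rfl
  have hpre1 : ∀ r n, st r n ++ [r n] <+: st r (n + 1) := fun r n => by
    rw [st1]; exact hF1 _ _
  have hpre : ∀ r m n, m ≤ n → st r m <+: st r n := by
    intro r m n hmn
    induction n, hmn using Nat.le_induction with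
    | base => exact List.prefix_rfl
    | succ n _ ih => exact ih.trans ((List.prefix_append _ _).trans (hpre1 r n))
  have hlen : ∀ r n, n ≤ (st r n).length := by
    intro r n
    induction n with
    | zero => exact Nat.zero_le _
    | succ n ih =>
      have := (hpre1 r n).length_le
      simp at this
      omega
  let φ : X → X := fun r m => (st r (m + 1)).getD m false
  have hφ : ∀ r n, res (φ r) (st r n).length = st r n := by
    intro r n
    unfold res
    apply List.ext_getElem
    · simp
    · intro i h1 h2
      simp only [List.getElem_map, List.getElem_range]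
      have h3 : i < (st r (i + 1)).length := by have := hlen r (i + 1); omega
      show (st r (i + 1)).getD i false = _
      rw [List.getD_eq_getElem _ _ h3]
      rcases le_total (i + 1) n with h | h
      · exact (hpre r _ _ h).getElem h3
      · exact ((hpre r _ _ h).getElem h2).symm
  refine ⟨φ, ?_, ?_⟩
  · intro r r' hrr
    by_contra hne
    have hex : ∃ n, r n ≠ r' n := by
      by_contra h; push Not at h; exact hne (funext h)
    let n := Nat.find hex
    have hn : r n ≠ r' n := Nat.find_spec hex
    have hmin : ∀ m < n, r m = r' m := fun m hm => by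
      have := Nat.find_min hex hm
      push Not at this
      exact this
    have hst : ∀ m ≤ n, st r m = st r' m := by
      intro m hm
      induction m with
      | zero => rfl
      | succ m ih =>
        rw [st1, st1, ih (by omega), hmin m (by omega)]
    have h1 : res (φ r) ((st r n).length + 1) = st r n ++ [r n] := by
      have := hpre1 r n
      rw [← hφ r (n + 1)] at this
      have h2 := eq_res_of_prefix this
      simpa using h2.symm
    have h2 : res (φ r') ((st r' n).length + 1) = st r' n ++ [r' n] := by
      have := hpre1 r' n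
      rw [← hφ r' (n + 1)] at this
      have h2 := eq_res_of_prefix this
      simpa using h2.symm
    rw [hrr, hst n le_rfl, h2] at h1
    simp at h1
    exact hn h1.symm
  · intro r
    refine ⟨hφ r 0, ?_⟩
    intro i x hx n
    obtain ⟨k, hk⟩ : ∃ k, en k = (i, res x n) := hen _
    have := hF2 (en k) (st r k ++ [r k]) (φ r) (by rw [← st1]; exact hφ r (k + 1))
    rw [hk] at this
    obtain ⟨x', h1, h2, h3⟩ := this ⟨x, hx, by simp⟩
    refine ⟨x', h1, h3, ?_⟩
    simpa [res_eq_iff] using h2

theorem mk_X : #X = 𝔠 := by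
  show #(ℕ → Bool) = 𝔠
  rw [← Cardinal.power_def, Cardinal.mk_nat, Cardinal.mk_bool]
  exact Cardinal.two_power_aleph0

theorem mk_Fam : #Fam = 𝔠 := by
  have : #(Set (List Bool)) = 𝔠 := by
    rw [Cardinal.mk_set, Cardinal.mk_eq_aleph0]
    exact Cardinal.two_power_aleph0
  show #(ℕ → Set (List Bool)) = 𝔠
  rw [← Cardinal.power_def, Cardinal.mk_nat, this]
  exact Cardinal.continuum_power_aleph0

/-- existence of the coding functions -/
theorem exists_gH : ∃ (g : X → Fam) (H : X → Hl), ∀ (L : List (ℕ × X)) (D : Fam) (k : ℕ) (h : Hl)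
    (ρ : List Bool), GoodF (Zc L) D → ∃ u, res u ρ.length = ρ ∧ GoodF (Zc ((k, u) :: L)) D ∧
      g u = D ∧ H u = h := by
  classical
  let I := List (ℕ × X) × Fam × ℕ × Hl × List Bool
  have hI : #I ≤ 𝔠 := by
    have h1 : #(ℕ × X) = 𝔠 := by
      rw [Cardinal.mk_prod]
      simp only [Cardinal.lift_id]
      rw [mk_X, Cardinal.mk_nat, Cardinal.aleph0_mul_continuum]
    have h2 : #(List (ℕ × X)) = 𝔠 := by
      have : Infinite (ℕ × X) := inferInstance
      rw [Cardinal.mk_list_eq_mk, h1]
    have h3 : #(ℕ × Hl × List Bool) = ℵ₀ := Cardinal.mk_eq_aleph0 _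
    show #(List (ℕ × X) × Fam × (ℕ × Hl × List Bool)) ≤ 𝔠
    rw [Cardinal.mk_prod, Cardinal.mk_prod]
    simp only [Cardinal.lift_id]
    rw [h2, h3, mk_Fam, Cardinal.continuum_mul_aleph0, Cardinal.continuum_mul_self]
  let G : I → Set X := fun i =>
    if GoodF (Zc i.1) i.2.1 then {u | res u i.2.2.2.2.length = i.2.2.2.2 ∧
      GoodF (Zc ((i.2.2.1, u) :: i.1)) i.2.1} else Set.univ
  have hG : ∀ i, 𝔠 ≤ #(G i) := by
    rintro ⟨L, D, k, h, ρ⟩
    by_cases hgood : GoodF (Zc L) D
    · have hc : (k :: L.map Prod.fst, (none : Option ℕ)) ∉ dom (Zc L) := by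
        rintro ⟨r, hr⟩
        have := (mem_Zc_length hr).1
        simp at this
      obtain ⟨φ, hφ1, hφ2⟩ := perfect_good hc hgood ρ
      simp only [G, if_pos hgood]
      rw [← mk_X]
      refine Cardinal.mk_le_of_injective (f := fun r => ⟨φ r, (hφ2 r).1, (hφ2 r).2⟩) ?_
      intro r r' hrr
      exact hφ1 (congrArg Subtype.val hrr)
    · simp only [G, if_neg hgood]
      rw [Cardinal.mk_univ, mk_X]
  obtain ⟨f, hf1, hf2⟩ := inj_choice hI G hG
  have hinv : ∀ i, Function.invFun f (f i) = i := Function.leftInverse_invFun hf1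
  have hne : Nonempty I := ⟨([], fun _ => ∅, 0, [], [])⟩
  refine ⟨fun u => (Function.invFun f u).2.1, fun u => (Function.invFun f u).2.2.2.1, ?_⟩
  intro L D k h ρ hgood
  refine ⟨f (L, D, k, h, ρ), ?_, ?_, ?_, ?_⟩
  · have := hf2 (L, D, k, h, ρ)
    simp only [G, if_pos hgood] at this
    exact this.1
  · have := hf2 (L, D, k, h, ρ)
    simp only [G, if_pos hgood] at this
    exact this.2
  · show (Function.invFun f (f (L, D, k, h, ρ))).2.1 = D
    rw [hinv]
  · show (Function.invFun f (f (L, D, k, h, ρ))).2.2.2.1 = h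
    rw [hinv]

end Pool.Agent.R598.TF
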