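import Pool.Agent.R598.TFBase

/-!
# The tree forcing: conditions
-/

namespace Pool.Agent.R598.TF

open Set

/-- finite lists of `y`-constraints: `((κ, j), σ)` says that column `y^{κ,j}` is `q σ` -/
abbrev Hl := List ((List ℕ × ℕ) × List Bool)

/-- the `z`-constraints of a list of pairs (type, real) -/
def Zc : List (ℕ × X) → Set (Col × X)
  | [] => ∅
  | (k, u) :: L => insert ((k :: L.map Prod.fst, none), u) (Zc L)

/-- the `y`-constraints of a list -/
def Yh (h : Hl) : Set (Col × X) := {p | ∃ κ j σ, ((κ, j), σ) ∈ h ∧ p = ((κ, some j), q σ)}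

def Yc (H : X → Hl) : List (ℕ × X) → Hl
  | [] => []
  | (_, u) :: L => H u ++ Yc H L

/-- allowed lists -/
def Allowed (g : X → Fam) (H : X → Hl) : List (ℕ × X) → Prop
  | [] => True
  | (k, u) :: L => Allowed g H L ∧
      (∀ p ∈ H u, L.map Prod.fst <:+ p.1.1 ∧ ¬ (k :: L.map Prod.fst) <:+ p.1.1) ∧
      ∀ p ∈ (k, u) :: L, GoodF (Zc ((k, u) :: L)) (g p.2)

/-- all the constraints of a list -/
def Cn (H : X → Hl) (L : List (ℕ × X)) : Set (Col × X) := Zc L ∪ Yh (Yc H L)

/-- the tree of a condition -/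
def TreeOf (H : X → Hl) (L : List (ℕ × X)) (s : List Bool) : Set (List Bool) :=
  {t | ∃ x n, Sat (Cn H L) x ∧ res x s.length = s ∧ t = res x n}

def IsCond (g : X → Fam) (H : X → Hl) (L : List (ℕ × X)) (s : List Bool) : Prop :=
  Allowed g H L ∧ ∃ x, Sat (Cn H L) x ∧ res x s.length = s

/-- the forcing -/
def PP (g : X → Fam) (H : X → Hl) : Set (Set (List Bool)) :=
  {T | ∃ L s, IsCond g H L s ∧ T = TreeOf H L s}

theorem mem_Zc {L : List (ℕ × X)} {p : Col × X} :
    p ∈ Zc L ↔ ∃ k u L', (k, u) :: L' <:+ L ∧ p = ((k :: L'.map Prod.fst, none), u) := by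
  induction L with
  | nil => simp [Zc]
  | cons a L ih =>
    obtain ⟨k, u⟩ := a
    simp only [Zc, mem_insert_iff, ih]
    constructor
    · rintro (h | ⟨k', u', L', h1, h2⟩)
      · exact ⟨k, u, L, List.suffix_rfl, h⟩
      · exact ⟨k', u', L', h1.trans (List.suffix_cons _ _), h2⟩
    · rintro ⟨k', u', L', h1, h2⟩
      rcases List.suffix_cons_iff.1 h1 with h3 | h3
      · left
        simp only [List.cons.injEq, Prod.mk.injEq] at h3
        obtain ⟨⟨rfl, rfl⟩, rfl⟩ := h3
        exact h2
      · right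
        exact ⟨k', u', L', h3, h2⟩

theorem Zc_mono {L L' : List (ℕ × X)} (h : L <:+ L') : Zc L ⊆ Zc L' := by
  intro p hp
  rw [mem_Zc] at hp ⊢
  obtain ⟨k, u, L1, h1, h2⟩ := hp
  exact ⟨k, u, L1, h1.trans h, h2⟩

theorem Yh_mono {h h' : Hl} (hh : ∀ p ∈ h, p ∈ h') : Yh h ⊆ Yh h' := by
  rintro p ⟨κ, j, σ, h1, h2⟩
  exact ⟨κ, j, σ, hh _ h1, h2⟩

theorem Yh_append (h h' : Hl) : Yh (h ++ h') = Yh h ∪ Yh h' := by
  ext p
  constructor
  · rintro ⟨κ, j, σ, h1, h2⟩
    rcases List.mem_append.1 h1 with h1 | h1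
    · exact Or.inl ⟨κ, j, σ, h1, h2⟩
    · exact Or.inr ⟨κ, j, σ, h1, h2⟩
  · rintro (⟨κ, j, σ, h1, h2⟩ | ⟨κ, j, σ, h1, h2⟩)
    · exact ⟨κ, j, σ, List.mem_append.2 (Or.inl h1), h2⟩
    · exact ⟨κ, j, σ, List.mem_append.2 (Or.inr h1), h2⟩

theorem mem_Yc {H : X → Hl} {L : List (ℕ × X)} {p : (List ℕ × ℕ) × List Bool} :
    p ∈ Yc H L ↔ ∃ k u L', (k, u) :: L' <:+ L ∧ p ∈ H u := by
  induction L with
  | nil => simp [Yc]
  | cons a L ih =>
    obtain ⟨k, u⟩ := a
    simp only [Yc, List.mem_append, ih]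
    constructor
    · rintro (h | ⟨k', u', L', h1, h2⟩)
      · exact ⟨k, u, L, List.suffix_rfl, h⟩
      · exact ⟨k', u', L', h1.trans (List.suffix_cons _ _), h2⟩
    · rintro ⟨k', u', L', h1, h2⟩
      rcases List.suffix_cons_iff.1 h1 with h3 | h3
      · left
        simp only [List.cons.injEq, Prod.mk.injEq] at h3
        obtain ⟨⟨rfl, rfl⟩, rfl⟩ := h3
        exact h2
      · right
        exact ⟨k', u', L', h3, h2⟩

theorem Yc_mono {H : X → Hl} {L L' : List (ℕ × X)} (h : L <:+ L') :
    ∀ p ∈ Yc H L, p ∈ Yc H L' := by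
  intro p hp
  rw [mem_Yc] at hp ⊢
  obtain ⟨k, u, L1, h1, h2⟩ := hp
  exact ⟨k, u, L1, h1.trans h, h2⟩

theorem Cn_mono {H : X → Hl} {L L' : List (ℕ × X)} (h : L <:+ L') : Cn H L ⊆ Cn H L' :=
  union_subset_union (Zc_mono h) (Yh_mono (Yc_mono h))

theorem Allowed.of_suffix {g : X → Fam} {H : X → Hl} {L L' : List (ℕ × X)} (h : L <:+ L')
    (hL : Allowed g H L') : Allowed g H L := by
  induction L' with
  | nil =>
    have : L = [] := by simpa using h
    rw [this]; trivial
  | cons a L' ih =>
    rcases List.suffix_cons_iff.1 h with h3 | h3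
    · rw [h3]; exact hL
    · exact ih h3 hL.1

theorem Allowed.block {g : X → Fam} {H : X → Hl} {L L' : List (ℕ × X)} {k : ℕ} {u : X}
    (h : (k, u) :: L <:+ L') (hL : Allowed g H L') {p : (List ℕ × ℕ) × List Bool}
    (hp : p ∈ H u) : L.map Prod.fst <:+ p.1.1 ∧ ¬ (k :: L.map Prod.fst) <:+ p.1.1 :=
  (Allowed.of_suffix h hL).2.1 p hp

/-- z-columns are not mentioned by y-constraints -/
theorem not_mem_Yh_none {h : Hl} {κ : List ℕ} {r : X} : ((κ, none), r) ∉ Yh h := by
  rintro ⟨κ', j, σ, -, h2⟩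
  simp at h2

theorem not_mem_Zc_some {L : List (ℕ × X)} {κ : List ℕ} {j : ℕ} {r : X} :
    ((κ, some j), r) ∉ Zc L := by
  rw [mem_Zc]
  rintro ⟨k, u, L', -, h2⟩
  simp at h2

theorem mem_Zc_length {L : List (ℕ × X)} {c : Col} {r : X} (h : (c, r) ∈ Zc L) :
    c.1.length ≤ L.length ∧ c.1 <:+ L.map Prod.fst ∧ c.1 ≠ [] ∧ c.2 = none := by
  rw [mem_Zc] at h
  obtain ⟨k, u, L', h1, h2⟩ := h
  simp only [Prod.mk.injEq] at h2
  obtain ⟨rfl, rfl⟩ := h2
  refine ⟨?_, ?_, by simp, rfl⟩
  · have := h1.length_le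
    simpa using this
  · exact h1.map Prod.fst

/-- the constraints mention boundedly many columns: long `z`-columns are free -/
theorem body_TreeOf (H : X → Hl) (L : List (ℕ × X)) (s : List Bool) :
    body (TreeOf H L s) = {x | Sat (Cn H L) x ∧ res x s.length = s} := by
  ext x
  constructor
  · intro hx
    have key : ∀ n, ∃ y, Sat (Cn H L) y ∧ res y s.length = s ∧ Ag x y n := by
      intro n
      obtain ⟨y, m, h1, h2, h3⟩ := hx n
      have hm : n = m := by simpa using congrArg List.length h3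
      subst hm
      exact ⟨y, h1, h2, res_eq_iff.1 h3⟩
    constructor
    · intro p hp
      funext m
      obtain ⟨y, h1, -, h3⟩ := key (bit p.1 m + 1)
      have := congrFun (h1 p hp) m
      simp only [col] at this ⊢
      rw [h3 _ (Nat.lt_succ_self _), this]
    · obtain ⟨y, -, h2, h3⟩ := key s.length
      rw [res_eq_iff.2 h3, h2]
  · rintro ⟨h1, h2⟩ n
    exact ⟨x, n, h1, h2, rfl⟩

/-- a point with a modified free bit -/
theorem exists_flip {H : X → Hl} {L : List (ℕ × X)} {x : X} (hx : Sat (Cn H L) x) {c : Col}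
    (hc : c ∉ dom (Cn H L)) (m : ℕ) (b : Bool) :
    Sat (Cn H L) (Function.update x (bit c m) b) := by
  intro p hp
  rw [← hx p hp]
  have hne : p.1 ≠ c := by
    rintro rfl
    exact hc ⟨p.2, hp⟩
  funext i
  simp only [col]
  rw [Function.update_of_ne]
  intro h
  exact hne (bit_inj h).1

theorem update_ag {x : X} {n i : ℕ} (b : Bool) (h : n ≤ i) : Ag (Function.update x i b) x n := by
  intro j hj
  rw [Function.update_of_ne]
  omega

/-- a long column is free -/
theorem exists_free (H : X → Hl) (L : List (ℕ × X)) : ∃ c, c ∉ dom (Cn H L) := by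
  refine ⟨(List.replicate (L.length + 1) 0, none), ?_⟩
  rintro ⟨r, hr | hr⟩
  · have := (mem_Zc_length hr).1
    simp at this
  · exact not_mem_Yh_none hr

theorem TreeOf_perfect {g : X → Fam} {H : X → Hl} {L : List (ℕ × X)} {s : List Bool}
    (h : IsCond g H L s) : IsPerfect (TreeOf H L s) where
  down := by
    rintro t t' ⟨x, n, h1, h2, h3⟩ htt
    rw [h3] at htt
    exact ⟨x, t.length, h1, h2, eq_res_of_prefix htt⟩
  ne := by
    obtain ⟨-, x, h1, h2⟩ := h
    exact ⟨res x 0, x, 0, h1, h2, rfl⟩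
  split := by
    rintro t ⟨x, n, h1, h2, h3⟩
    obtain ⟨c, hc⟩ := exists_free H L
    set N := max n s.length with hN
    have hb : N ≤ bit c N := le_bit c N
    refine ⟨res (Function.update x (bit c N) true) (bit c N + 1), ⟨_, _,
      exists_flip h1 hc N true, ?_, rfl⟩,
      res (Function.update x (bit c N) false) (bit c N + 1), ⟨_, _,
      exists_flip h1 hc N false, ?_, rfl⟩, ?_, ?_, ?_, ?_⟩
    · rw [← h2, length_res, res_eq_iff]
      exact update_ag _ (by omega)
    · rw [← h2, length_res, res_eq_iff]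
      exact update_ag _ (by omega)
    · rw [h3, ← res_eq_iff.2 (update_ag (x := x) (n := n) (i := bit c N) true (by omega))]
      exact res_prefix _ (by omega)
    · rw [h3, ← res_eq_iff.2 (update_ag (x := x) (n := n) (i := bit c N) false (by omega))]
      exact res_prefix _ (by omega)
    · intro hp
      have := hp.eq_of_length (by simp)
      rw [res_eq_iff] at this
      have h4 := this (bit c N) (Nat.lt_succ_self _)
      simp at h4
    · intro hp
      have := hp.eq_of_length (by simp)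
      rw [res_eq_iff] at this
      have h4 := this (bit c N) (Nat.lt_succ_self _)
      simp at h4

theorem PP_treeForcing (g : X → Fam) (H : X → Hl) : IsTreeForcing (PP g H) where
  perfect := by
    rintro T ⟨L, s, h, rfl⟩
    exact TreeOf_perfect h
  full := by
    refine ⟨[], [], ⟨trivial, fun _ => false, ?_, rfl⟩, ?_⟩
    · rintro p (hp | ⟨κ, j, σ, h1, -⟩)
      · exact hp.elim
      · simp [Yc] at h1
    · ext t
      simp only [mem_univ, true_iff]
      obtain ⟨x, hx⟩ := exists_res t
      refine ⟨x, t.length, ?_, rfl, hx.symm⟩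
      rintro p (hp | ⟨κ, j, σ, h1, -⟩)
      · exact hp.elim
      · simp [Yc] at h1
  sub := by
    rintro T ⟨L, s, h, rfl⟩ t ⟨x, n, h1, h2, h3⟩
    rcases le_total s.length n with hn | hn
    · have htl : t.length = n := by rw [h3]; simp
      refine ⟨L, t, ⟨h.1, x, h1, ?_⟩, ?_⟩
      · rw [htl, h3]
      · ext t'
        constructor
        · rintro ⟨⟨x', n', h1', h2', h3'⟩, hc⟩
          rcases hc with hc | hc
          · refine ⟨x, t'.length, h1, by rw [htl, h3], ?_⟩
            rw [h3] at hc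
            exact eq_res_of_prefix hc
          · refine ⟨x', n', h1', ?_, h3'⟩
            rw [h3'] at hc
            exact (eq_res_of_prefix hc).symm
        · rintro ⟨x', n', h1', h2', h3'⟩
          refine ⟨⟨x', n', h1', ?_, h3'⟩, ?_⟩
          · rw [← h2, length_res, res_eq_iff]
            rw [htl, h3] at h2'
            exact (res_eq_iff.1 h2').mono hn
          · rw [h3', ← h2']
            rcases le_total n' t.length with h4 | h4
            · exact Or.inl (res_prefix _ h4)
            · exact Or.inr (res_prefix _ h4)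
    · refine ⟨L, s, h, ?_⟩
      ext t'
      constructor
      · rintro ⟨h5, -⟩
        exact h5
      · rintro ⟨x', n', h1', h2', h3'⟩
        refine ⟨⟨x', n', h1', h2', h3'⟩, ?_⟩
        have h6 : t = res x' n := by
          rw [h3]
          have : res x s.length = res x' s.length := h2.trans h2'.symm
          exact res_eq_iff.2 ((res_eq_iff.1 this).mono hn)
        rw [h3', h6]
        rcases le_total n' n with h4 | h4
        · exact Or.inl (res_prefix _ h4)
        · exact Or.inr (res_prefix _ h4)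

/-- inclusion of trees forces extension of types -/
theorem suffix_of_sub {g : X → Fam} {H : X → Hl} {L L' : List (ℕ × X)} {s s' : List Bool}
    (h' : IsCond g H L' s') (hsub : TreeOf H L' s' ⊆ TreeOf H L s) : L <:+ L' := by
  have hbody : ∀ x, Sat (Cn H L') x → res x s'.length = s' →
      Sat (Cn H L) x ∧ res x s.length = s := by
    intro x h1 h2
    have : x ∈ body (TreeOf H L' s') := by rw [body_TreeOf]; exact ⟨h1, h2⟩
    have h3 : x ∈ body (TreeOf H L s) := fun n => hsub (this n)
    rw [body_TreeOf] at h3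
    exact h3
  obtain ⟨-, x0, hx1, hx2⟩ := h'
  have hZ : Zc L ⊆ Zc L' := by
    rintro ⟨c, r⟩ hcr
    have hc2 : c.2 = none := (mem_Zc_length hcr).2.2.2
    have hcd : c ∈ dom (Cn H L') := by
      by_contra hc
      set b : Bool := !(r s'.length) with hb
      have h1 := hbody _ (exists_flip hx1 hc s'.length b)
        ((res_eq_iff.2 (update_ag _ (le_bit c _))).trans hx2)
      have h2 := congrFun (h1.1 (c, r) (Or.inl hcr)) s'.length
      simp [col, hb] at h2
    obtain ⟨r', hr' | hr'⟩ := hcd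
    · have h1 := hx1 _ (Or.inl hr')
      have h2 := (hbody x0 hx1 hx2).1 _ (Or.inl hcr)
      simp only at h1 h2
      rw [← h2, h1]; exact hr'
    · exfalso
      obtain ⟨c1, c2⟩ := c
      simp only at hc2
      subst hc2
      exact not_mem_Yh_none hr'
  clear hbody hsub hx1 hx2
  induction L with
  | nil => exact List.nil_suffix
  | cons a L ih =>
    obtain ⟨k, u⟩ := a
    have h1 : L <:+ L' := ih ((Zc_mono (List.suffix_cons _ _)).trans hZ)
    have h2 : ((k :: L.map Prod.fst, none), u) ∈ Zc L' := hZ (by simp [Zc])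
    rw [mem_Zc] at h2
    obtain ⟨k', u', L2, h3, h4⟩ := h2
    simp only [Prod.mk.injEq, List.cons.injEq, and_true] at h4
    obtain ⟨⟨rfl, h5⟩, rfl⟩ := h4
    have h6 : L2.length = L.length := by
      have := congrArg List.length h5
      simpa using this.symm
    have h7 : L2 <:+ L' := (List.suffix_cons _ _).trans h3
    have h8 : L2 = L := by
      rcases List.suffix_or_suffix_of_suffix h7 h1 with h | h
      · exact h.eq_of_length h6
      · exact (h.eq_of_length h6.symm).symm
    rw [h8] at h3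
    exact h3

end Pool.Agent.R598.TF
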