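import Pool.Agent.R598.TFChoice

/-!
# The tree forcing: the two fusion arguments
-/

namespace Pool.Agent.R598.TF

open Set

/-- The coding property of `g` and `H`. -/
def Coding (g : X → Fam) (H : X → Hl) : Prop :=
  ∀ (L : List (ℕ × X)) (D : Fam) (k : ℕ) (h : Hl) (ρ : List Bool), GoodF (Zc L) D →
    ∃ u, res u ρ.length = ρ ∧ GoodF (Zc ((k, u) :: L)) D ∧ g u = D ∧ H u = h

/-- positive sets of reals, relative to `L` -/
def Jpos (g : X → Fam) (L : List (ℕ × X)) (W : Set X) : Prop :=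
  ∀ D : Fam, GoodF (Zc L) D → ∃ w ∈ W, ∀ i, ∃ j, D i = g w j

theorem Jpos.exists_of_iUnion {g : X → Fam} {L : List (ℕ × X)} {W : ℕ → Set X}
    (h : Jpos g L (⋃ n, W n)) : ∃ n, Jpos g L (W n) := by
  by_contra hcon
  push Not at hcon
  unfold Jpos at hcon
  push Not at hcon
  choose D hD1 hD2 using hcon
  obtain ⟨w, hw, hw2⟩ := h (fun k => D k.unpair.1 k.unpair.2) (fun i => hD1 _ _)
  rw [mem_iUnion] at hw
  obtain ⟨n, hn⟩ := hw
  obtain ⟨i, hi⟩ := hD2 n w hn
  obtain ⟨j, hj⟩ := hw2 (Nat.pair n i)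
  simp only [Nat.unpair_pair] at hj
  exact hi j hj

/-- block condition on `h` for the extension of `L` by `k` -/
def BC (L : List (ℕ × X)) (k : ℕ) (h : Hl) : Prop :=
  ∀ p ∈ h, L.map Prod.fst <:+ p.1.1 ∧ ¬ (k :: L.map Prod.fst) <:+ p.1.1

/-- the reals `w` for which some condition extending `(k, w) :: L` with finite part `t` avoids
`N` -/
def Xset (g : X → Fam) (H : X → Hl) (L : List (ℕ × X)) (N : Set X) (k : ℕ) (h : Hl)
    (t : List Bool) : Set X :=
  {w | H w = h ∧ ∃ L', Allowed g H (L' ++ (k, w) :: L) ∧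
    (∃ x, Sat (Cn H (L' ++ (k, w) :: L)) x ∧ res x t.length = t) ∧
    ∀ x, Sat (Cn H (L' ++ (k, w) :: L)) x → res x t.length = t → x ∉ N}

theorem allowed_cons {g : X → Fam} {H : X → Hl} (L : List (ℕ × X)) (hL : Allowed g H L)
    {D : Fam} {k : ℕ} {w : X} (hD : ∀ p ∈ L, ∀ i, ∃ j, g p.2 i = D j)
    (h1 : GoodF (Zc ((k, w) :: L)) D) (h2 : g w = D) (h3 : BC L k (H w)) :
    Allowed g H ((k, w) :: L) := by
  refine ⟨hL, h3, ?_⟩
  intro p hp
  rcases List.mem_cons.1 hp with hp | hp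
  · rw [hp]
    show GoodF _ (g w)
    rw [h2]; exact h1
  · intro i
    obtain ⟨j, hj⟩ := hD p hp i
    rw [hj]; exact h1 j

theorem goodF_of_allowed {g : X → Fam} {H : X → Hl} {L : List (ℕ × X)} (hL : Allowed g H L) :
    ∀ p ∈ L, GoodF (Zc L) (g p.2) := by
  cases L with
  | nil => intro p hp; simp at hp
  | cons a L => exact hL.2.2

/-- combine `D` with the families attached to `L` -/
theorem exists_comb {g : X → Fam} {H : X → Hl} {L : List (ℕ × X)} (hL : Allowed g H L) {D : Fam}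
    (hD : GoodF (Zc L) D) : ∃ D' : Fam, GoodF (Zc L) D' ∧ (∀ i, ∃ j, D i = D' j) ∧
      ∀ p ∈ L, ∀ i, ∃ j, g p.2 i = D' j := by
  classical
  refine ⟨fun n => if h : n.unpair.1 < L.length then g (L[n.unpair.1]).2 n.unpair.2
    else D n.unpair.2, ?_, ?_, ?_⟩
  · intro n
    by_cases h : n.unpair.1 < L.length
    · simp only [dif_pos h]
      exact goodF_of_allowed hL _ (List.getElem_mem h) _
    · simp only [dif_neg h]
      exact hD _
  · intro i
    refine ⟨Nat.pair L.length i, ?_⟩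
    simp
  · intro p hp i
    obtain ⟨a, ha, rfl⟩ := List.getElem_of_mem hp
    refine ⟨Nat.pair a i, ?_⟩
    simp [ha]

theorem claim_one {g : X → Fam} {H : X → Hl} (hcod : Coding g H) {L : List (ℕ × X)}
    (hL : Allowed g H L) {N : Set X} (hN : NowhereDense (PP g H) N) {k : ℕ} {h : Hl}
    (hBC : BC L k h) {x0 : X} (hx0 : Sat (Cn H L ∪ Yh h) x0) (n0 : ℕ) :
    ∃ x1 n1, n0 ≤ n1 ∧ Sat (Cn H L ∪ Yh h) x1 ∧ Ag x1 x0 n0 ∧
      Jpos g L (Xset g H L N k h (res x1 n1)) := by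
  classical
  by_contra hcon
  push Not at hcon
  -- enumerate
  let W : List Bool → Set X := fun t => if ∃ x1 n1, n0 ≤ n1 ∧ Sat (Cn H L ∪ Yh h) x1 ∧
    Ag x1 x0 n0 ∧ t = res x1 n1 then Xset g H L N k h t else ∅
  obtain ⟨en, hen⟩ := exists_surjective_nat (List Bool)
  have hpos : Jpos g L (⋃ n, W (en n)) := by
    intro D hD
    obtain ⟨D', hD1, hD2, hD3⟩ := exists_comb hL hD
    set c : Col := (k :: L.map Prod.fst, none) with hc
    obtain ⟨w, hw1, hw2, hw3, hw4⟩ := hcod L D' k h (res (col x0 c) n0) hD1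
    rw [length_res, res_eq_iff] at hw1
    have hall : Allowed g H ((k, w) :: L) :=
      allowed_cons L hL hD3 hw2 hw3 (by rw [hw4]; exact hBC)
    have hcd : c ∉ dom (Cn H L ∪ Yh h) := by
      rintro ⟨r, (hr | hr) | hr⟩
      · have := (mem_Zc_length hr).1
        simp [hc] at this
      · exact not_mem_Yh_none hr
      · exact not_mem_Yh_none hr
    set x0' : X := rep {c} (fun n => w (idxOf n)) x0 with hx0'
    have hcolc : col x0' c = w := by
      rw [hx0', col_rep_mem (mem_singleton c)]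
      funext m
      simp [col]
    have hsat0 : Sat (Cn H L ∪ Yh h) x0' := by
      intro p hp
      have : p.1 ∉ ({c} : Set Col) := by
        intro h8
        rw [mem_singleton_iff] at h8
        exact hcd ⟨p.2, by rw [← h8]; exact hp⟩
      rw [hx0', col_rep_not_mem this]
      exact hx0 p hp
    have hag0 : Ag x0' x0 n0 := by
      intro i hi
      rw [hx0']
      unfold rep
      split_ifs with hci
      · rw [mem_singleton_iff] at hci
        have h7 : idxOf i ≤ i := by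
          have := le_bit (colOf i) (idxOf i)
          rwa [bit_colOf_idxOf] at this
        show w (idxOf i) = x0 i
        rw [hw1 (idxOf i) (by omega)]
        simp only [col]
        rw [← hci, bit_colOf_idxOf]
      · rfl
    have hsat1 : Sat (Cn H ((k, w) :: L)) x0' := by
      rintro p (hp | hp)
      · rcases hp with hp | hp
        · rw [hp]; exact hcolc
        · exact hsat0 p (Or.inl (Or.inl hp))
      · simp only [Yc] at hp
        rw [Yh_append, hw4] at hp
        rcases hp with hp | hp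
        · exact hsat0 p (Or.inr hp)
        · exact hsat0 p (Or.inl (Or.inr hp))
    have hS : IsCond g H ((k, w) :: L) (res x0' n0) := ⟨hall, x0', hsat1, by simp⟩
    obtain ⟨R, ⟨L', s', hL', rfl⟩, hRS, hRN⟩ := hN _ ⟨_, _, hS, rfl⟩
    obtain ⟨L'', hL''⟩ := suffix_of_sub hL' hRS
    obtain ⟨hall', x1, hx1, hx1s⟩ := hL'
    have hx1b : x1 ∈ body (TreeOf H L' s') := by rw [body_TreeOf]; exact ⟨hx1, hx1s⟩
    have hx1c : Ag x1 x0' n0 := by
      have : x1 ∈ body (TreeOf H ((k, w) :: L) (res x0' n0)) := fun n => hRS (hx1b n)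
      rw [body_TreeOf] at this
      have h2 := this.2
      rw [length_res, res_eq_iff] at h2
      exact h2
    have hsub : Cn H L ∪ Yh h ⊆ Cn H L' := by
      have h9 : (k, w) :: L <:+ L' := ⟨L'', hL''⟩
      have h10 := Cn_mono (H := H) h9
      rintro p (hp | hp)
      · exact h10 (Cn_mono (List.suffix_cons _ _) hp)
      · apply h10
        right
        simp only [Yc]
        rw [Yh_append, hw4]
        exact Or.inl hp
    set n1 := max n0 s'.length with hn1
    have hmem : w ∈ W (res x1 n1) := by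
      have hex : ∃ x2 n2, n0 ≤ n2 ∧ Sat (Cn H L ∪ Yh h) x2 ∧ Ag x2 x0 n0 ∧
          res x1 n1 = res x2 n2 :=
        ⟨x1, n1, le_max_left _ _, hx1.mono hsub, hx1c.trans hag0, rfl⟩
      simp only [W, if_pos hex]
      refine ⟨hw4, L'', ?_, ?_, ?_⟩
      · rw [hL'']; exact hall'
      · rw [hL'']; exact ⟨x1, hx1, by simp⟩
      · rw [hL'']
        intro x hx hxr hxN
        rw [length_res, res_eq_iff] at hxr
        have : x ∈ body (TreeOf H L' s') := by
          rw [body_TreeOf]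
          refine ⟨hx, ?_⟩
          rw [← hx1s, length_res, res_eq_iff]
          exact hxr.mono (le_max_right _ _)
        have h11 : x ∈ body (TreeOf H L' s') ∩ N := ⟨this, hxN⟩
        rw [hRN] at h11
        exact h11
    obtain ⟨m, hm⟩ := hen (res x1 n1)
    refine ⟨w, mem_iUnion.2 ⟨m, by rw [hm]; exact hmem⟩, ?_⟩
    intro i
    rw [hw3]
    exact hD2 i
  obtain ⟨n, hn⟩ := hpos.exists_of_iUnion
  by_cases hex : ∃ x1 n1, n0 ≤ n1 ∧ Sat (Cn H L ∪ Yh h) x1 ∧ Ag x1 x0 n0 ∧ en n = res x1 n1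
  · simp only [W, if_pos hex] at hn
    obtain ⟨x1, n1, h1, h2, h3, h4⟩ := hex
    rw [h4] at hn
    exact hcon x1 n1 h1 h2 h3 hn
  · simp only [W, if_neg hex] at hn
    obtain ⟨w, hw, -⟩ := hn (fun _ => Set.univ) (fun i => by
      have : openOf (Set.univ : Set (List Bool)) = Set.univ := by
        ext x; simp [openOf]
      rw [this]
      exact good_univ _)
    exact hw.elim

/-- the basic open set -/
def EE (g : X → Fam) (H : X → Hl) (L : List (ℕ × X)) (N : ℕ → Set X) (i : ℕ × Hl × ℕ) : Set X :=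
  {x | ∃ n, i.2.2 ≤ n ∧ Jpos g L (Xset g H L (N i.1) i.1 i.2.1 (res x n))}

theorem EE_open (g : X → Fam) (H : X → Hl) (L : List (ℕ × X)) (N : ℕ → Set X) (i : ℕ × Hl × ℕ) :
    ∀ x ∈ EE g H L N i, ∃ n, ∀ y, Ag y x n → y ∈ EE g H L N i := by
  rintro x ⟨n, hn1, hn2⟩
  refine ⟨n, fun y hy => ⟨n, hn1, ?_⟩⟩
  rw [res_eq_iff.2 hy]; exact hn2

/-- valid indices -/
def Val (H : X → Hl) (L : List (ℕ × X)) (i : ℕ × Hl × ℕ) : Prop :=
  BC L i.1 i.2.1 ∧ ∃ y, Sat (Cn H L ∪ Yh i.2.1) y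

open Classical in
/-- witness -/
noncomputable def wit (H : X → Hl) (L : List (ℕ × X)) (i : ℕ × Hl × ℕ) : X :=
  if h : ∃ y, Sat (Cn H L ∪ Yh i.2.1) y then h.choose else fun _ => false

theorem wit_sat {H : X → Hl} {L : List (ℕ × X)} {i : ℕ × Hl × ℕ} (h : Val H L i) :
    Sat (Cn H L ∪ Yh i.2.1) (wit H L i) := by
  have h2 : ∃ y, Sat (Cn H L ∪ Yh i.2.1) y := h.2
  unfold wit
  rw [dif_pos h2]
  exact h2.choose_spec

/-- the shifted open set -/
noncomputable def EB (g : X → Fam) (H : X → Hl) (L : List (ℕ × X)) (N : ℕ → Set X)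
    (i : ℕ × Hl × ℕ) : Set X :=
  {x | rep (dom (Cn H L ∪ Yh i.2.1)) (wit H L i) x ∈ EE g H L N i}

theorem EB_open (g : X → Fam) (H : X → Hl) (L : List (ℕ × X)) (N : ℕ → Set X) (i : ℕ × Hl × ℕ) :
    ∀ x ∈ EB g H L N i, ∃ n, ∀ y, Ag y x n → y ∈ EB g H L N i := by
  intro x hx
  obtain ⟨n, hn⟩ := EE_open g H L N i _ hx
  exact ⟨n, fun y hy => hn _ (rep_ag hy)⟩

theorem EB_good {g : X → Fam} {H : X → Hl} (hcod : Coding g H) {L : List (ℕ × X)}
    (hL : Allowed g H L) {N : ℕ → Set X} (hN : ∀ l, NowhereDense (PP g H) (N l))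
    {i : ℕ × Hl × ℕ} (hi : Val H L i) : Good (Zc L) (EB g H L N i) := by
  refine good_rep (S' := Cn H L ∪ Yh i.2.1) ?_ (wit_sat hi) ?_
  · exact fun p hp => Or.inl (Or.inl hp)
  · intro x hx n
    obtain ⟨x1, n1, h1, h2, h3, h4⟩ := claim_one hcod hL (hN i.1) hi.1 hx (max n i.2.2)
    exact ⟨x1, h2, ⟨n1, (le_max_right _ _).trans h1, h4⟩, h3.mono (le_max_left _ _)⟩

end Pool.Agent.R598.TF
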