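import Pool.Agent.R598.TFWide

/-!
# The tree forcing: the tall fusion, and the non-measurable Borel set
-/

namespace Pool.Agent.R598.TF

open Set

structure TS where
  L : List (ℕ × X)
  x : X
  n : ℕ

structure TInv (g : X → Fam) (H : X → Hl) (l : ℕ) (st : TS) : Prop where
  i1 : Allowed g H st.L
  i2 : Sat (Cn H st.L) st.x
  i3 : l ≤ st.n

structure TRel (H : X → Hl) (N : ℕ → Set X) (en : ℕ → List ℕ × ℕ × List Bool) (l : ℕ)
    (st st' : TS) : Prop where
  r1 : Ag st'.x st.x st.n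
  r2 : st.n ≤ st'.n
  r3 : st.L <:+ st'.L
  r4 : ∀ y, Sat (Cn H st'.L) y → Ag y st'.x st'.n → y ∉ N l
  r5 : ((en l).1, some (en l).2.1) ∉ dom (Cn H st'.L) → ∀ y, Ag y st'.x st'.n →
    col y ((en l).1, some (en l).2.1) ≠ q (en l).2.2

theorem tall_step {g : X → Fam} {H : X → Hl} {N : ℕ → Set X}
    (hN : ∀ l, NowhereDense (PP g H) (N l)) (en : ℕ → List ℕ × ℕ × List Bool) (l : ℕ) (st : TS)
    (hI : TInv g H l st) : ∃ st', TInv g H (l + 1) st' ∧ TRel H N en l st st' := by
  classical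
  have hS : IsCond g H st.L (res st.x st.n) := ⟨hI.i1, st.x, hI.i2, by simp⟩
  obtain ⟨R, ⟨L1, s1, hL1, rfl⟩, hRS, hRN⟩ := hN l _ ⟨_, _, hS, rfl⟩
  have hsuf := suffix_of_sub hL1 hRS
  obtain ⟨hall1, x1, hx1, hx1s⟩ := hL1
  have hx1b : x1 ∈ body (TreeOf H L1 s1) := by rw [body_TreeOf]; exact ⟨hx1, hx1s⟩
  have hx1c : Ag x1 st.x st.n := by
    have : x1 ∈ body (TreeOf H st.L (res st.x st.n)) := fun n => hRS (hx1b n)
    rw [body_TreeOf] at this
    have h2 := this.2
    rw [length_res, res_eq_iff] at h2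
    exact h2
  set n1 := max (st.n + 1) s1.length with hn1
  have hI3 := hI.i3
  have hav : ∀ y, Sat (Cn H L1) y → Ag y x1 n1 → y ∉ N l := by
    intro y hy hag hyN
    have : y ∈ body (TreeOf H L1 s1) := by
      rw [body_TreeOf]
      refine ⟨hy, ?_⟩
      rw [← hx1s, length_res, res_eq_iff]
      exact hag.mono (le_max_right _ _)
    have h11 : y ∈ body (TreeOf H L1 s1) ∩ N l := ⟨this, hyN⟩
    rw [hRN] at h11
    exact h11
  set c : Col := ((en l).1, some (en l).2.1) with hc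
  by_cases hcd : c ∈ dom (Cn H L1)
  · refine ⟨⟨L1, x1, n1⟩, ⟨hall1, hx1, ?_⟩, ⟨hx1c, ?_, hsuf, hav, fun h => absurd hcd h⟩⟩
    · show l + 1 ≤ n1
      omega
    · show st.n ≤ n1
      omega
  · set b : Bool := !(q (en l).2.2 n1) with hb
    have hbn : n1 ≤ bit c n1 := le_bit c n1
    have hag : Ag (Function.update x1 (bit c n1) b) x1 n1 := update_ag b hbn
    refine ⟨⟨L1, Function.update x1 (bit c n1) b, bit c n1 + 1⟩,
      ⟨hall1, exists_flip hx1 hcd n1 b, ?_⟩, ⟨?_, ?_, hsuf, ?_, ?_⟩⟩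
    · show l + 1 ≤ bit c n1 + 1
      omega
    · exact (hag.mono (by omega)).trans hx1c
    · show st.n ≤ bit c n1 + 1
      omega
    · intro y hy hagy
      exact hav y hy ((hagy.mono (by show n1 ≤ bit c n1 + 1; omega)).trans hag)
    · intro _ y hagy heq
      have h1 : y (bit c n1) = b := by
        have h2 : y (bit c n1) = (Function.update x1 (bit c n1) b) (bit c n1) :=
          hagy (bit c n1) (Nat.lt_succ_self _)
        rw [h2, Function.update_self]
      have h3 := congrFun heq n1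
      simp only [col] at h3
      rw [h1, hb] at h3
      simp at h3

theorem tall {g : X → Fam} {H : X → Hl} {L : List (ℕ × X)} {s : List Bool}
    (hc : IsCond g H L s) {N : ℕ → Set X} (hN : ∀ l, NowhereDense (PP g H) (N l)) :
    ∃ x, Sat (Cn H L) x ∧ res x s.length = s ∧
      (∀ κ, ∃ j, ∀ σ, col x (κ, some j) ≠ q σ) ∧ ∀ l, x ∉ N l := by
  classical
  obtain ⟨hL, x0, hx0, hx0s⟩ := hc
  obtain ⟨en, hen⟩ := exists_surjective_nat (List ℕ × ℕ × List Bool)
  obtain ⟨f, hf0, hf1, hf2⟩ := exists_seq_of_step (TInv g H) (TRel H N en)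
    (⟨L, x0, s.length⟩ : TS) ⟨hL, hx0, Nat.zero_le _⟩
    (fun l st hI => tall_step hN en l st hI)
  have hag : ∀ a b, a ≤ b → Ag (f b).x (f a).x (f a).n ∧ (f a).n ≤ (f b).n ∧
      (f a).L <:+ (f b).L := by
    intro a b hab
    induction b, hab using Nat.le_induction with
    | base => exact ⟨Ag.refl _ _, le_rfl, List.suffix_rfl⟩
    | succ b _ ih =>
      obtain ⟨h1, h2, h3⟩ := ih
      have h4 := hf2 b
      exact ⟨(h4.r1.mono h2).trans h1, h2.trans h4.r2, h3.trans h4.r3⟩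
  let x : X := fun i => (f (i + 1)).x i
  have hx : ∀ l, Ag x (f l).x (f l).n := by
    intro l i hi
    show (f (i + 1)).x i = (f l).x i
    rcases le_total l (i + 1) with h | h
    · exact (hag _ _ h).1 i hi
    · have h6 := (hf1 (i + 1)).i3
      exact ((hag _ _ h).1 i (by omega)).symm
  have hsat : ∀ l, Sat (Cn H (f l).L) x := by
    intro l p hp
    funext m
    set b := max l (bit p.1 m + 1) with hb
    have h1 := Cn_mono (hag l b (le_max_left _ _)).2.2 hp
    have h2 := congrFun ((hf1 b).i2 p h1) m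
    have h6 := (hf1 b).i3
    have h3 := hx b (bit p.1 m) (by omega)
    simp only [col] at h2 ⊢
    rw [h3, h2]
  have hfin : ∀ κ, ∃ j, ∀ l, ((κ, some j) : Col) ∉ dom (Cn H (f l).L) := by
    intro κ
    have hY : ∀ l j, ((κ, some j) : Col) ∈ dom (Cn H (f l).L) →
        ∃ k u L1 τ, (k, u) :: L1 <:+ (f l).L ∧ L1.map Prod.fst <:+ κ ∧
          ¬ (k :: L1.map Prod.fst) <:+ κ ∧ ((κ, j), τ) ∈ H u := by
      rintro l j ⟨r, hr | hr⟩
      · exact absurd hr not_mem_Zc_some
      · obtain ⟨κ', j', τ, h1, h2⟩ := hr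
        simp only [Prod.mk.injEq, Option.some.injEq] at h2
        obtain ⟨⟨h2a, h2b⟩, -⟩ := h2
        rw [← h2a, ← h2b, mem_Yc] at h1
        obtain ⟨k, u, L1, h3, h4⟩ := h1
        obtain ⟨h5, h6⟩ := Allowed.block h3 (hf1 l).i1 h4
        exact ⟨k, u, L1, τ, h3, h5, h6, h4⟩
    by_cases h : ∃ l k u L1, (k, u) :: L1 <:+ (f l).L ∧ L1.map Prod.fst <:+ κ ∧
        ¬ (k :: L1.map Prod.fst) <:+ κ
    · obtain ⟨l0, k, u, L1, h1, h2, h3⟩ := h
      obtain ⟨J, hJ⟩ : ∃ J, ∀ p ∈ H u, p.1.2 < J := by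
        refine ⟨((H u).map (fun p => p.1.2)).sum + 1, fun p hp => Nat.lt_succ_of_le ?_⟩
        exact List.le_sum_of_mem (List.mem_map.2 ⟨p, hp, rfl⟩)
      refine ⟨J, fun l hl => ?_⟩
      obtain ⟨k', u', L1', τ, g1, g2, g3, g4⟩ := hY l J hl
      have e1 : (k, u) :: L1 <:+ (f (max l l0)).L := h1.trans (hag _ _ (le_max_right _ _)).2.2
      have e2 : (k', u') :: L1' <:+ (f (max l l0)).L := g1.trans (hag _ _ (le_max_left _ _)).2.2
      have e3 : (k, u) :: L1 = (k', u') :: L1' := by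
        rcases lt_trichotomy L1.length L1'.length with hlt | heq | hlt
        · exfalso
          have e4 : (k, u) :: L1 <:+ L1' :=
            suffix_of_len_le e1 ((List.suffix_cons _ _).trans e2) (by simpa using hlt)
          exact h3 ((e4.map Prod.fst).trans g2)
        · exact suffix_len_eq e1 e2 (by simpa using heq)
        · exfalso
          have e4 : (k', u') :: L1' <:+ L1 :=
            suffix_of_len_le e2 ((List.suffix_cons _ _).trans e1) (by simpa using hlt)
          exact g3 ((e4.map Prod.fst).trans h2)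
      simp only [List.cons.injEq, Prod.mk.injEq] at e3
      rw [← e3.1.2] at g4
      have := hJ _ g4
      simp at this
    · refine ⟨0, fun l hl => ?_⟩
      obtain ⟨k', u', L1', τ, g1, g2, g3, g4⟩ := hY l 0 hl
      exact h ⟨l, k', u', L1', g1, g2, g3⟩
  refine ⟨x, ?_, ?_, ?_, ?_⟩
  · have := hsat 0
    rw [hf0] at this
    exact this
  · have h1 := hx 0
    rw [hf0] at h1
    rw [← hx0s, length_res, res_eq_iff]
    exact h1
  · intro κ
    obtain ⟨j, hj⟩ := hfin κ
    refine ⟨j, fun σ => ?_⟩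
    obtain ⟨l, hl⟩ := hen (κ, j, σ)
    have h5 := (hf2 l).r5
    rw [hl] at h5
    exact h5 (hj (l + 1)) x (hx (l + 1))
  · intro l
    exact (hf2 l).r4 x (hsat (l + 1)) (hx (l + 1))

/-- The Borel set. -/
def AA : Set X := {x | ∃ κ, ∀ j, ∃ σ, col x (κ, some j) = q σ}

theorem AA_borel : @MeasurableSet X (borel X) AA := by
  have : AA = ⋃ κ : List ℕ, ⋂ j : ℕ, ⋃ σ : List Bool, {x : X | col x (κ, some j) = q σ} := by
    ext x
    simp [AA]
  rw [this]
  refine MeasurableSet.iUnion (m := borel X) fun κ => MeasurableSet.iInter (m := borel X) fun j =>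
    MeasurableSet.iUnion (m := borel X) fun σ => ?_
  have hcl : IsClosed {x : X | col x (κ, some j) = q σ} := by
    have h1 : {x : X | col x (κ, some j) = q σ} =
        ⋂ m : ℕ, {x : X | x (bit (κ, some j) m) = q σ m} := by
      ext x
      simp only [mem_ofPred_eq, mem_iInter]
      constructor
      · intro h m
        exact congrFun h m
      · intro h
        funext m
        exact h m
    rw [h1]
    refine isClosed_iInter fun m => ?_
    exact isClosed_eq (continuous_apply _) continuous_const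
  have h2 : @MeasurableSet X (borel X) ({x : X | col x (κ, some j) = q σ}ᶜ) :=
    MeasurableSpace.measurableSet_generateFrom hcl.isOpen_compl
  have h3 := @MeasurableSet.compl X _ (borel X) h2
  rwa [compl_compl] at h3

theorem main : ∃ P : Set (Set (List Bool)), IsTreeForcing P ∧
    ∃ A : Set (ℕ → Bool), @MeasurableSet (ℕ → Bool) (borel (ℕ → Bool)) A ∧ ¬ PMeasurable P A := by
  obtain ⟨g, H, hcod⟩ := exists_gH
  refine ⟨PP g H, PP_treeForcing g H, AA, AA_borel, ?_⟩
  intro hmeas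
  obtain ⟨S, ⟨L, s, hc, rfl⟩, -, h⟩ := hmeas Set.univ (PP_treeForcing g H).full
  rcases h with ⟨N, hN, hsub⟩ | ⟨N, hN, hsub⟩
  · obtain ⟨x, h1, h2, h3, h4⟩ := tall hc hN
    have hx : x ∈ body (TreeOf H L s) \ AA := by
      refine ⟨?_, ?_⟩
      · rw [body_TreeOf]; exact ⟨h1, h2⟩
      · rintro ⟨κ, hκ⟩
        obtain ⟨j, hj⟩ := h3 κ
        obtain ⟨σ, hσ⟩ := hκ j
        exact hj σ hσ
    obtain ⟨l, hl⟩ := mem_iUnion.1 (hsub hx)
    exact h4 l hl
  · obtain ⟨x, h1, h2, h3, h4⟩ := wide hcod hc hN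
    have hx : x ∈ body (TreeOf H L s) ∩ AA := by
      refine ⟨?_, ?_⟩
      · rw [body_TreeOf]; exact ⟨h1, h2⟩
      · exact ⟨_, h3⟩
    obtain ⟨l, hl⟩ := mem_iUnion.1 (hsub hx)
    exact h4 l hl

end Pool.Agent.R598.TF
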