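import Pool.Agent.R598.TFMain

/-!
# The tree forcing: the wide fusion
-/

namespace Pool.Agent.R598.TF

open Set

theorem Yc_append (H : X → Hl) (L L' : List (ℕ × X)) : Yc H (L ++ L') = Yc H L ++ Yc H L' := by
  induction L with
  | nil => rfl
  | cons a L ih =>
    obtain ⟨k, u⟩ := a
    simp only [List.cons_append, Yc, ih, List.append_assoc]

structure WS where
  Z : Set (Col × X)
  h : Hl
  x : X
  n : ℕ

def CS (H : X → Hl) (L : List (ℕ × X)) (st : WS) : Set (Col × X) :=
  (st.Z ∪ Yh (Yc H L)) ∪ Yh st.h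

structure WInv (g : X → Fam) (H : X → Hl) (L : List (ℕ × X)) (N : ℕ → Set X) (l : ℕ)
    (st : WS) : Prop where
  i1 : Zc L ⊆ st.Z
  i2 : ∀ p ∈ st.Z, p.1.2 = none ∧ ∀ l', l ≤ l' → ¬ (l' :: L.map Prod.fst) <:+ p.1.1
  i3 : ∀ p ∈ st.h, L.map Prod.fst <:+ p.1.1 ∧
    (∀ l', l ≤ l' → ¬ (l' :: L.map Prod.fst) <:+ p.1.1) ∧ (p.1.1 = L.map Prod.fst → p.1.2 < l)
  i4 : Sat (CS H L st) st.x
  i5 : ∀ i, l ≤ i.1 → Val H L i → Good st.Z (EB g H L N i)
  i6 : l ≤ st.n

structure WRel (H : X → Hl) (L : List (ℕ × X)) (N : ℕ → Set X) (l : ℕ) (st st' : WS) :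
    Prop where
  r1 : Ag st'.x st.x st.n
  r2 : st.n ≤ st'.n
  r3 : CS H L st ⊆ CS H L st'
  r4 : ∀ y, Sat (CS H L st') y → Ag y st'.x st'.n → y ∉ N l
  r5 : ∃ σ, ((L.map Prod.fst, some l), q σ) ∈ CS H L st'

theorem suffix_len_eq {α : Type*} {a b c : List α} (h1 : a <:+ c) (h2 : b <:+ c)
    (h : a.length = b.length) : a = b := by
  rcases List.suffix_or_suffix_of_suffix h1 h2 with h3 | h3
  · exact h3.eq_of_length h
  · exact (h3.eq_of_length h.symm).symm

theorem suffix_of_len_le {α : Type*} {a b c : List α} (h1 : a <:+ c) (h2 : b <:+ c)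
    (h : a.length ≤ b.length) : a <:+ b := by
  rcases List.suffix_or_suffix_of_suffix h1 h2 with h3 | h3
  · exact h3
  · rw [h3.eq_of_length (le_antisymm h3.length_le h)]

theorem wide_step {g : X → Fam} {H : X → Hl} {L : List (ℕ × X)}
    {N : ℕ → Set X} (l : ℕ) (hL : Allowed g H L)
    (st : WS) (hI : WInv g H L N l st) : ∃ st', WInv g H L N (l + 1) st' ∧
      WRel H L N l st st' := by
  classical
  set κ := L.map Prod.fst with hκ
  set S' : Set (Col × X) := Cn H L ∪ Yh st.h with hS'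
  have hsatS' : Sat S' st.x := by
    apply hI.i4.mono
    rintro p ((hp | hp) | hp)
    · exact Or.inl (Or.inl (hI.i1 hp))
    · exact Or.inl (Or.inr hp)
    · exact Or.inr hp
  have hval : Val H L (l, st.h, st.n + 1) :=
    ⟨fun p hp => ⟨(hI.i3 p hp).1, (hI.i3 p hp).2.1 l le_rfl⟩, st.x, hsatS'⟩
  have hZx : Sat st.Z st.x := hI.i4.mono (fun p hp => Or.inl (Or.inl hp))
  obtain ⟨x', hx'1, hx'2, hx'3⟩ := hI.i5 _ le_rfl hval st.x hZx (st.n + 1)
  set wt := wit H L (l, st.h, st.n + 1) with hwt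
  have hwt_sat : Sat S' wt := wit_sat hval
  set x2 : X := rep (dom S') wt x' with hx2
  obtain ⟨n, hn, hJ⟩ : x2 ∈ EE g H L N (l, st.h, st.n + 1) := hx'2
  simp only at hn hJ
  have hx2Z : Sat st.Z x2 := by
    intro p hp
    by_cases hc : p.1 ∈ dom S'
    · rw [hx2, col_rep_mem hc]
      obtain ⟨r, hr⟩ := hc
      have h1 := hwt_sat _ hr
      have h2 := hsatS' _ hr
      have h3 := hZx p hp
      simp only at h1 h2
      rw [h1, ← h2, h3]
    · rw [hx2, col_rep_not_mem hc]
      exact hx'1 p hp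
  have hx2S : Sat S' x2 := by
    intro p hp
    rw [hx2, col_rep_mem (⟨p.2, hp⟩ : p.1 ∈ dom S')]
    exact hwt_sat p hp
  have hx2ag : Ag x2 st.x (st.n + 1) := by
    intro i hi
    rw [hx2]
    unfold rep
    split_ifs with hc
    · obtain ⟨r, hr⟩ := hc
      have h1 := hwt_sat _ hr
      have h2 := hsatS' _ hr
      have h3 : col wt (colOf i) = col st.x (colOf i) := h1.trans h2.symm
      have := congrFun h3 (idxOf i)
      simpa [col] using this
    · exact hx'3 i hi
  -- the family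
  obtain ⟨en, hen⟩ := exists_surjective_nat (ℕ × Hl × ℕ)
  have hDex : ∀ a, ∃ D : Set (List Bool), openOf D =
      if l + 1 ≤ (en a).1 ∧ Val H L (en a) then
        {x | rep (dom st.Z) st.x x ∈ EB g H L N (en a)} else Set.univ := by
    intro a
    apply openOf_exists
    intro x hx
    split_ifs at hx ⊢ with hc
    · obtain ⟨m, hm⟩ := EB_open g H L N (en a) _ hx
      exact ⟨m, fun y hy => hm _ (rep_ag hy)⟩
    · exact ⟨0, fun y _ => trivial⟩
  choose D hD using hDex
  have hDgood : GoodF (Zc L) D := by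
    intro a
    rw [hD a]
    split_ifs with hc
    · exact good_rep hI.i1 hZx (hI.i5 _ (by omega) hc.2)
    · exact good_univ _
  obtain ⟨w, ⟨hw1, L', hw2, ⟨xR, hxR1, hxR2⟩, hw3⟩, hw4⟩ := hJ D hDgood
  set LR := L' ++ (l, w) :: L with hLR
  rw [length_res] at hxR2 hw3
  rw [res_eq_iff] at hxR2
  have hmapLR : (l :: κ) <:+ LR.map Prod.fst := by
    rw [hLR, List.map_append]
    exact List.suffix_append _ _
  have hLLR : (l, w) :: L <:+ LR := List.suffix_append _ _
  have hgoodR : ∀ i, l + 1 ≤ i.1 → Val H L i → Good (st.Z ∪ Zc LR) (EB g H L N i) := by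
    intro i hi hv
    obtain ⟨a, ha⟩ := hen i
    obtain ⟨b, hb⟩ := hw4 a
    have h1 : Good (Zc LR) (openOf (g w b)) :=
      goodF_of_allowed hw2 (l, w) (by rw [hLR]; simp) b
    rw [← hb, hD a, ha, if_pos ⟨hi, hv⟩] at h1
    exact good_union hZx h1
  set σ : List Bool := res (col x2 (κ, some l)) n with hσ
  have hqσ : ∀ m < n, q σ m = x2 (bit (κ, some l) m) := by
    intro m hm
    unfold q
    rw [List.getD_eq_getElem _ _ (by rw [hσ]; simpa using hm)]
    rw [List.getElem_of_eq hσ]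
    simp [res, col]
  set K1 : Set Col := {c | (l :: κ) <:+ c.1} with hK1
  set x3 : X := rep K1 xR x2 with hx3
  set x4 : X := rep {(κ, some l)} (fun i => q σ (idxOf i)) x3 with hx4
  have hag43 : Ag x4 x2 n := by
    intro i hi
    rw [hx4]
    unfold rep
    split_ifs with hc
    · rw [mem_singleton_iff] at hc
      have h7 : idxOf i ≤ i := by
        have := le_bit (colOf i) (idxOf i)
        rwa [bit_colOf_idxOf] at this
      show q σ (idxOf i) = x2 i
      rw [hqσ _ (by omega), ← hc, bit_colOf_idxOf]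
    · rw [hx3]
      unfold rep
      split_ifs with hc2
      · exact hxR2 i hi
      · rfl
  -- facts on blocks
  have hb1 : ∀ p ∈ Yc H L', (l :: κ) <:+ p.1.1 := by
    intro p hp
    rw [mem_Yc] at hp
    obtain ⟨k, u, L1, h1, h2⟩ := hp
    have h3 : (k, u) :: (L1 ++ (l, w) :: L) <:+ LR := by
      obtain ⟨L2, hL2⟩ := h1
      refine ⟨L2, ?_⟩
      rw [hLR, ← hL2]
      simp
    have h4 := (Allowed.block h3 hw2 h2).1
    refine List.IsSuffix.trans ?_ h4
    rw [List.map_append]
    exact List.suffix_append _ _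
  have hb2 : ∀ p ∈ Yc H L, ¬ κ <:+ p.1.1 := by
    intro p hp hcon
    rw [mem_Yc] at hp
    obtain ⟨k, u, L1, h1, h2⟩ := hp
    apply (Allowed.block h1 hL h2).2
    refine List.IsSuffix.trans ?_ hcon
    exact h1.map Prod.fst
  have hneq : ∀ κ' : List ℕ, (l :: κ) <:+ κ' → ¬ (κ' = κ) := by
    rintro κ' h1 rfl
    have := h1.length_le
    simp at this
  have hneq2 : ∀ κ' : List ℕ, (l :: κ) <:+ κ' → ∀ l', l + 1 ≤ l' → ¬ (l' :: κ) <:+ κ' := by
    intro κ' h1 l' hl' h2
    have := suffix_len_eq h1 h2 (by simp)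
    simp at this
    omega
  set st' : WS := ⟨st.Z ∪ Zc LR, ((κ, l), σ) :: (Yc H L' ++ st.h), x4, n⟩ with hst'
  have hYLR : Yc H LR = Yc H L' ++ (st.h ++ Yc H L) := by
    rw [hLR, Yc_append]
    simp only [Yc]
    rw [hw1]
  have hcol4 : col x4 (κ, some l) = q σ := by
    rw [hx4, col_rep_mem (mem_singleton _)]
    funext m
    simp only [col, idxOf_bit]
  -- satisfaction
  have hsat : Sat (CS H L st') x4 := by
    have hcol2 : ∀ c : Col, c ≠ (κ, some l) → c ∉ K1 → col x4 c = col x2 c := by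
      intro c h1 h2
      rw [hx4, col_rep_not_mem (by rwa [mem_singleton_iff]), hx3, col_rep_not_mem h2]
    have hcolR : ∀ c : Col, c ≠ (κ, some l) → c ∈ K1 → col x4 c = col xR c := by
      intro c h1 h2
      rw [hx4, col_rep_not_mem (by rwa [mem_singleton_iff]), hx3, col_rep_mem h2]
    rintro p ((hp | hp) | hp)
    · rcases hp with hp | hp
      · obtain ⟨h1, h2⟩ := hI.i2 p hp
        rw [hcol2 p.1 (by rintro h3; rw [h3] at h1; simp at h1) (h2 l le_rfl)]
        exact hx2Z p hp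
      · have hp' := hp
        rw [mem_Zc] at hp'
        obtain ⟨k, u, L1, h1, rfl⟩ := hp'
        have h3 : ((k :: L1.map Prod.fst, (none : Option ℕ)) : Col) ≠ (κ, some l) := by simp
        by_cases h4 : ((k :: L1.map Prod.fst, (none : Option ℕ)) : Col) ∈ K1
        · rw [hcolR _ h3 h4]
          exact hxR1 ((k :: L1.map Prod.fst, none), u) (Or.inl hp)
        · rw [hcol2 _ h3 h4]
          refine hx2Z ((k :: L1.map Prod.fst, none), u) (hI.i1 (mem_Zc.2 ⟨k, u, L1, ?_, rfl⟩))
          have h5 : (k, u) :: L1 <:+ LR := h1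
          have h6 : (k :: L1.map Prod.fst) <:+ LR.map Prod.fst := h1.map Prod.fst
          apply suffix_of_len_le h5 ((List.suffix_cons _ _).trans hLLR)
          by_contra hlen
          apply h4
          apply suffix_of_len_le hmapLR h6
          have : κ.length = L.length := by simp [hκ]
          simp only [List.length_cons, List.length_map] at hlen ⊢
          omega
    · have hp' := hp
      obtain ⟨κ', j, τ, h1, rfl⟩ := hp'
      have h2 := hb2 _ h1
      simp only at h2
      have h3 : ((κ', some j) : Col) ≠ (κ, some l) := by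
        intro h4
        simp only [Prod.mk.injEq] at h4
        exact h2 (by rw [h4.1])
      have h5 : ((κ', some j) : Col) ∉ K1 := fun h6 => h2 ((List.suffix_cons _ _).trans h6)
      rw [hcol2 _ h3 h5]
      exact hx2S ((κ', some j), q τ) (Or.inl (Or.inr hp))
    · obtain ⟨κ', j, τ, h1, rfl⟩ := hp
      simp only [hst', List.mem_cons, List.mem_append] at h1
      rcases h1 with h1 | h1 | h1
      · simp only [Prod.mk.injEq] at h1
        obtain ⟨⟨h1a, h1b⟩, h1c⟩ := h1
        rw [h1a, h1b, h1c]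
        exact hcol4
      · have h2 := hb1 _ h1
        simp only at h2
        rw [hcolR _ (by
          intro h4
          simp only [Prod.mk.injEq] at h4
          exact hneq _ h2 h4.1) h2]
        refine hxR1 ((κ', some j), q τ) (Or.inr ⟨κ', j, τ, ?_, rfl⟩)
        rw [hYLR]
        exact List.mem_append.2 (Or.inl h1)
      · obtain ⟨h2, h3, h4⟩ := hI.i3 _ h1
        simp only at h2 h3 h4
        rw [hcol2 _ (by
          intro h5
          simp only [Prod.mk.injEq, Option.some.injEq] at h5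
          have := h4 h5.1
          omega) (h3 l le_rfl)]
        exact hx2S ((κ', some j), q τ) (Or.inr ⟨κ', j, τ, h1, rfl⟩)
  have hCnLR : Cn H LR ⊆ CS H L st' := by
    rintro p (hp | ⟨κ', j, τ, h1, rfl⟩)
    · exact Or.inl (Or.inl (Or.inr hp))
    · rw [hYLR] at h1
      rcases List.mem_append.1 h1 with h1 | h1
      · exact Or.inr ⟨κ', j, τ, by simp [hst', h1], rfl⟩
      · rcases List.mem_append.1 h1 with h1 | h1
        · exact Or.inr ⟨κ', j, τ, by simp [hst', h1], rfl⟩
        · exact Or.inl (Or.inr ⟨κ', j, τ, h1, rfl⟩)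
  refine ⟨st', ⟨?_, ?_, ?_, hsat, hgoodR, ?_⟩, ⟨?_, ?_, ?_, ?_, ?_⟩⟩
  · exact hI.i1.trans subset_union_left
  · rintro p (hp | hp)
    · exact ⟨(hI.i2 p hp).1, fun l' hl' => (hI.i2 p hp).2 l' (by omega)⟩
    · rw [mem_Zc] at hp
      obtain ⟨k, u, L1, h1, rfl⟩ := hp
      refine ⟨rfl, fun l' hl' h2 => ?_⟩
      have h6 : (k :: L1.map Prod.fst) <:+ LR.map Prod.fst := h1.map Prod.fst
      have h7 := suffix_len_eq (h2.trans h6) hmapLR (by simp [hκ])
      simp at h7
      omega
  · intro p hp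
    simp only [hst', List.mem_cons, List.mem_append] at hp
    rcases hp with hp | hp | hp
    · rw [hp]
      refine ⟨List.suffix_rfl, fun l' _ h2 => ?_, fun _ => Nat.lt_succ_self l⟩
      have := h2.length_le
      simp [hκ] at this
    · have h2 := hb1 _ hp
      exact ⟨(List.suffix_cons _ _).trans h2, hneq2 _ h2, fun h3 => absurd h3 (hneq _ h2)⟩
    · obtain ⟨h2, h3, h4⟩ := hI.i3 _ hp
      exact ⟨h2, fun l' hl' => h3 l' (by omega), fun h5 => Nat.lt_succ_of_lt (h4 h5)⟩
  · have := hI.i6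
    show l + 1 ≤ n
    omega
  · exact (hag43.mono (by omega)).trans (hx2ag.mono (by omega))
  · show st.n ≤ n
    omega
  · rintro p ((hp | hp) | ⟨κ', j, τ, h1, rfl⟩)
    · exact Or.inl (Or.inl (Or.inl hp))
    · exact Or.inl (Or.inr hp)
    · exact Or.inr ⟨κ', j, τ, by simp [hst', h1], rfl⟩
  · intro y hy hag
    have hag' : Ag y x2 n := Ag.trans hag hag43
    exact hw3 y (hy.mono hCnLR) (res_eq_iff.2 hag')
  · exact ⟨σ, Or.inr ⟨κ, l, σ, by simp [hst'], rfl⟩⟩

theorem wide {g : X → Fam} {H : X → Hl} (hcod : Coding g H) {L : List (ℕ × X)} {s : List Bool}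
    (hc : IsCond g H L s) {N : ℕ → Set X} (hN : ∀ l, NowhereDense (PP g H) (N l)) :
    ∃ x, Sat (Cn H L) x ∧ res x s.length = s ∧
      (∀ j, ∃ σ, col x (L.map Prod.fst, some j) = q σ) ∧ ∀ l, x ∉ N l := by
  classical
  obtain ⟨hL, x0, hx0, hx0s⟩ := hc
  have hinv0 : WInv g H L N 0 ⟨Zc L, [], x0, s.length⟩ := by
    refine ⟨subset_rfl, ?_, ?_, ?_, ?_, Nat.zero_le _⟩
    · intro p hp
      obtain ⟨h1, h2, h3, h4⟩ := mem_Zc_length (c := p.1) (r := p.2) hp
      refine ⟨h4, fun l' _ h5 => ?_⟩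
      have := h5.length_le
      simp at this
      omega
    · intro p hp
      simp at hp
    · rintro p (hp | ⟨κ', j, τ, h1, rfl⟩)
      · exact hx0 p hp
      · simp at h1
    · intro i _ hv
      exact EB_good hcod hL hN hv
  obtain ⟨f, hf0, hf1, hf2⟩ := exists_seq_of_step (WInv g H L N) (WRel H L N) _ hinv0
    (fun l st hI => wide_step l hL st hI)
  have hag : ∀ a b, a ≤ b → Ag (f b).x (f a).x (f a).n ∧ (f a).n ≤ (f b).n ∧
      CS H L (f a) ⊆ CS H L (f b) := by
    intro a b hab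
    induction b, hab using Nat.le_induction with
    | base => exact ⟨Ag.refl _ _, le_rfl, subset_rfl⟩
    | succ b _ ih =>
      obtain ⟨h1, h2, h3⟩ := ih
      have h4 := hf2 b
      exact ⟨(h4.r1.mono h2).trans h1, h2.trans h4.r2, h3.trans h4.r3⟩
  let x : X := fun i => (f (i + 1)).x i
  have hx : ∀ l, Ag x (f l).x (f l).n := by
    intro l i hi
    show (f (i + 1)).x i = (f l).x i
    rcases le_total l (i + 1) with h | h
    · exact (hag _ _ h).1 i hi
    · have h6 := (hf1 (i + 1)).i6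
      exact ((hag _ _ h).1 i (by omega)).symm
  have hsat : ∀ l, Sat (CS H L (f l)) x := by
    intro l p hp
    funext m
    set b := max l (bit p.1 m + 1) with hb
    have h1 := (hag l b (le_max_left _ _)).2.2 hp
    have h2 := congrFun ((hf1 b).i4 p h1) m
    have h6 := (hf1 b).i6
    have h3 := hx b (bit p.1 m) (by omega)
    simp only [col] at h2 ⊢
    rw [h3, h2]
  refine ⟨x, ?_, ?_, ?_, ?_⟩
  · apply (hsat 0).mono
    rw [hf0]
    rintro p (hp | hp)
    · exact Or.inl (Or.inl hp)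
    · exact Or.inl (Or.inr hp)
  · have h1 := hx 0
    rw [hf0] at h1
    rw [← hx0s, length_res, res_eq_iff]
    exact h1
  · intro j
    obtain ⟨σ, hσ⟩ := (hf2 j).r5
    exact ⟨σ, hsat (j + 1) _ hσ⟩
  · intro l
    exact (hf2 l).r4 x (hsat (l + 1)) (hx (l + 1))

end Pool.Agent.R598.TF
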